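import Mathlib

/-!
# Deterministic multitape Turing machines and the classes LINTIME and REALTIME

A machine has one two-way read-only input tape and finitely many work tapes, each with its own
finite alphabet and blank symbol.  A tape is represented by its contents as seen from the head:
a function on `ℤ`, the head being at cell `0`.
-/

namespace Pool.Agent.Helper86

/-- Head moves. -/
inductive Dir
  | left
  | stay
  | right

/-- A two-way infinite tape with symbols in `Γ`, as seen from the head: cell `0` is under the
head, cell `1` is the next cell to the right. -/
abbrev Tape (Γ : Type) : Type := ℤ → Γ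

/-- Moving the head of a tape. -/
def Tape.move {Γ : Type} (d : Dir) (T : Tape Γ) : Tape Γ :=
  match d with
  | Dir.left => fun z => T (z - 1)
  | Dir.stay => T
  | Dir.right => fun z => T (z + 1)

/-- Writing a symbol in the cell under the head. -/
def Tape.write {Γ : Type} (x : Γ) (T : Tape Γ) : Tape Γ := Function.update T 0 x

/-- The tape with the word `w` written on it, head on the first letter, blank (`none`)
elsewhere. -/
def inputTape {α : Type} (w : List α) : Tape (Option α) :=
  fun z => if 0 ≤ z then w[z.toNat]? else none

/-- A deterministic multitape Turing machine with input alphabet `α`: a read-only two-way input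
tape (cells in `Option α`, `none` is the blank) and finitely many work tapes (index set `ι`),
the work tape `i` having the finite alphabet `Γ i` with blank `blank i`.  In state `q`, seeing the
symbol `a` on the input tape and the symbols `x i` on the work tapes, the machine either halts with
a verdict (`δ q a x = Sum.inl verdict`) or goes to a new state, moves the input head and, on each
work tape, writes a symbol and moves the head. -/
structure Machine (α : Type) where
  /-- index set of the work tapes -/
  ι : Type
  finι : Finite ι
  /-- alphabets of the work tapes -/
  Γ : ι → Type
  finΓ : ∀ i, Finite (Γ i)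
  /-- blank symbols -/
  blank : ∀ i, Γ i
  /-- states -/
  Q : Type
  finQ : Finite Q
  /-- initial state -/
  start : Q
  /-- transition function -/
  δ : Q → Option α → (∀ i, Γ i) → Bool ⊕ (Q × Dir × (∀ i, Γ i × Dir))

namespace Machine

variable {α : Type} (M : Machine α)

/-- A configuration: state, input tape, work tapes. -/
structure Cfg where
  /-- current state -/
  q : M.Q
  /-- input tape -/
  inp : Tape (Option α)
  /-- work tapes -/
  work : ∀ i, Tape (M.Γ i)

/-- The initial configuration on input `w`. -/
def init (w : List α) : M.Cfg where
  q := M.start
  inp := inputTape w
  work := fun i _ => M.blank i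

/-- One step: halt with a verdict or go to the next configuration. -/
def step (c : M.Cfg) : Bool ⊕ M.Cfg :=
  match M.δ c.q (c.inp 0) (fun i => c.work i 0) with
  | Sum.inl b => Sum.inl b
  | Sum.inr (q', d, a) =>
    Sum.inr ⟨q', c.inp.move d, fun i => ((c.work i).write (a i).1).move (a i).2⟩

/-- `M.run t c`: the verdict if the machine, started in `c`, halts within `t` steps, and `none`
otherwise. -/
def run : ℕ → M.Cfg → Option Bool
  | 0, c =>
    match M.step c with
    | Sum.inl b => some b
    | Sum.inr _ => none
  | t + 1, c =>
    match M.step c with
    | Sum.inl b => some b
    | Sum.inr c' => run t c'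

end Machine

/-- `LINTIME`: the languages decided by a deterministic multitape Turing machine in time
`c (|w| + 1)` for some constant `c`. -/
def LINTIME {α : Type} (L : Language α) : Prop :=
  ∃ (M : Machine α) (c : ℕ), ∀ w : List α,
    (w ∈ L → M.run (c * (w.length + 1)) (M.init w) = some true) ∧
    (w ∉ L → M.run (c * (w.length + 1)) (M.init w) = some false)

/-- A deterministic real-time multitape Turing machine: it reads one input symbol per step and
decides at the end of the input. -/
structure RTMachine (α : Type) where
  /-- index set of the work tapes -/
  ι : Type
  finι : Finite ι
  /-- alphabets of the work tapes -/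
  Γ : ι → Type
  finΓ : ∀ i, Finite (Γ i)
  /-- blank symbols -/
  blank : ∀ i, Γ i
  /-- states -/
  Q : Type
  finQ : Finite Q
  /-- initial state -/
  start : Q
  /-- transition function -/
  δ : Q → α → (∀ i, Γ i) → Q × (∀ i, Γ i × Dir)
  /-- accepting states -/
  acc : Set Q

namespace RTMachine

variable {α : Type} (M : RTMachine α)

/-- One step of a real-time machine, reading the input symbol `a`. -/
def step (c : M.Q × (∀ i, Tape (M.Γ i))) (a : α) : M.Q × (∀ i, Tape (M.Γ i)) :=
  ((M.δ c.1 a (fun i => c.2 i 0)).1,
    fun i => ((c.2 i).write ((M.δ c.1 a (fun i => c.2 i 0)).2 i).1).move
      ((M.δ c.1 a (fun i => c.2 i 0)).2 i).2)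

/-- The language decided by a real-time machine. -/
def language : Language α :=
  {w | (w.foldl M.step (M.start, fun i _ => M.blank i)).1 ∈ M.acc}

end RTMachine

/-- `REALTIME`: the languages decided by real-time deterministic multitape Turing machines. -/
def REALTIME {α : Type} (L : Language α) : Prop := ∃ M : RTMachine α, M.language = L

end Pool.Agent.Helper86
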