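import Pool.Agent.Helper86.TMCounter

/-!
# Counting letters in binary, and marking a prefix given in binary, in linear time
-/

namespace Pool.Agent.Helper86

open Prog
open scoped Computability

section general

variable {α β Γ : Type}

/-- a program on the third tape -/
def onC {R : Type} (P : Prog (tapeDev (Option Γ)) R) : Prog (ioDev α β (tapeDev (Option Γ))) R :=
  lift (eD α β (tapeDev (Option Γ))) P

/-- a program on the output tape -/
def onT {R : Type} (P : Prog (tapeDev (Option β)) R) : Prog (ioDev α β (tapeDev (Option Γ))) R :=
  lift (eT α β (tapeDev (Option Γ))) P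

/-- move the input head to the right -/
def stepR : Prog (ioDev α β (tapeDev (Option Γ))) Unit :=
  lift (eI α β (tapeDev (Option Γ))) (inR α)

lemma onC_runs {R : Type} {P : Prog (tapeDev (Option Γ)) R} {d d' : Tape (Option Γ)} {t : ℕ}
    {r : R} (h : P.Runs d t r d') (x : Tape (Option α)) (y : Tape (Option β)) :
    (onC (α := α) (β := β) P).Runs (x, y, d) t r (x, y, d') := liftD_runs h x y

lemma onT_runs {R : Type} {P : Prog (tapeDev (Option β)) R} {y y' : Tape (Option β)} {t : ℕ}
    {r : R} (h : P.Runs y t r y') (x : Tape (Option α)) (d : Tape (Option Γ)) :
    (onT (α := α) (Γ := Γ) P).Runs (x, y, d) t r (x, y', d) :=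
  liftT_runs (D := tapeDev (Option Γ)) h x d

lemma stepR_runs (u v : List α) (a : α) (y : Tape (Option β)) (d : Tape (Option Γ)) :
    (stepR (α := α) (β := β) (Γ := Γ)).Runs (tp u (a :: v), y, d) 1 () (tp (a :: u) v, y, d) := by
  have h := liftI_runs (β := β) (D := tapeDev (Option Γ)) (inR_runs (tp u (a :: v))) y d
  rw [tp_right] at h
  exact h

lemma obs1 (u v : List α) (y : Tape (Option β)) (d : Tape (Option Γ)) :
    ((ioDev α β (tapeDev (Option Γ))).obs (tp u v, y, d)).1 = v.head? := tp_zero u v

end general

section count

variable {α : Type} [Finite α] (p : α → Bool)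

/-- count the letters satisfying `p` -/
def cntLoop : Prog (ioDev α Bool (tapeDev (Option Bool))) Unit :=
  loop (lookThen (D := ioDev α Bool (tapeDev (Option Bool))) (fun o => o.1) fun o =>
    match o with
    | none => ret (some ())
    | some x => (if p x then onC incP else ret ()).seq (stepR.seq (ret none)))

lemma cntLoop_runs (v : List α) (y : Tape (Option Bool)) : ∀ (u : List α) (C : List Bool),
    ∃ t, t + 4 * tc (incL^[v.countP p] C) ≤ 4 * tc C + 12 * v.length ∧
      (cntLoop p).Runs (tp u v, y, tp [] C) t ()
        (tp (v.reverse ++ u) [], y, tp [] (incL^[v.countP p] C)) := by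
  induction v with
  | nil =>
    intro u C
    refine ⟨0, by simp, ?_⟩
    apply loop_exit
    apply lookThen_runs
    rw [obs1]
    exact ret_runs _ _
  | cons x v ih =>
    intro u C
    cases hx : p x with
    | true =>
      obtain ⟨t, ht, hr⟩ := incP_runs C
      obtain ⟨t', ht', hr'⟩ := ih (x :: u) (incL C)
      have e : (x :: v).countP p = v.countP p + 1 := by simp [hx]
      have e2 : v.reverse ++ x :: u = (x :: v).reverse ++ u := by simp
      rw [e, Function.iterate_succ_apply]
      rw [e2] at hr'
      refine ⟨t + 1 + 1 + t', ?_, ?_⟩
      · simp only [List.length_cons]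
        omega
      · refine (loop_again (t := t + 1) ?_ hr').mono (by omega)
        apply lookThen_runs
        rw [obs1]
        show ((if p x then onC incP else ret ()).seq (stepR.seq (ret none))).Runs _ _ _ _
        rw [hx, if_pos rfl]
        exact seq_runs (onC_runs hr _ _) (seq_runs (stepR_runs u v x y _) (ret_runs _ _))
    | false =>
      obtain ⟨t', ht', hr'⟩ := ih (x :: u) C
      have e : (x :: v).countP p = v.countP p := by simp [hx]
      have e2 : v.reverse ++ x :: u = (x :: v).reverse ++ u := by simp
      rw [e]
      rw [e2] at hr'
      refine ⟨0 + 1 + 1 + t', ?_, ?_⟩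
      · simp only [List.length_cons]
        omega
      · refine (loop_again (t := 0 + 1) ?_ hr').mono (by omega)
        apply lookThen_runs
        rw [obs1]
        show ((if p x then onC incP else ret ()).seq (stepR.seq (ret none))).Runs _ _ _ _
        rw [hx, if_neg (by simp)]
        exact seq_runs (ret_runs _ _) (seq_runs (stepR_runs u v x y _) (ret_runs _ _))

/-- copy the third tape leftwards to the output -/
def outLoop : Prog (ioDev α Bool (tapeDev (Option Bool))) Unit :=
  loop (lookThen (D := ioDev α Bool (tapeDev (Option Bool))) (fun o => o.2.2) fun o =>
    match o with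
    | none => ret (some ())
    | some b => (onT (push b)).seq
      ((onC (doAct (D := tapeDev (Option Bool)) (none, Dir.left))).seq (ret none)))

omit [Finite α] in
lemma outLoop_runs (x : Tape (Option α)) (u : List Bool) : ∀ (v l : List Bool),
    (outLoop (α := α)).Runs (x, tp [] l, (tp u v).move Dir.left) (4 * u.length) ()
      (x, tp [] (u.reverse ++ l), tpL (u.reverse ++ v)) := by
  induction u with
  | nil =>
    intro v l
    apply loop_exit
    apply lookThen_runs
    have h : ((ioDev α Bool (tapeDev (Option Bool))).obs
        (x, tp [] l, (tp [] v).move Dir.left)).2.2 = none := tpL_zero v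
    rw [h]
    exact ret_runs _ _
  | cons b u ih =>
    intro v l
    rw [tp_left]
    have h : ((ioDev α Bool (tapeDev (Option Bool))).obs
        (x, tp [] l, tp u (b :: v))).2.2 = some b := tp_zero u (b :: v)
    have h5 := ih (b :: v) (b :: l)
    have e1 : u.reverse ++ b :: l = (b :: u).reverse ++ l := by simp
    have e2 : u.reverse ++ b :: v = (b :: u).reverse ++ v := by simp
    rw [e1, e2] at h5
    refine (loop_again (t := 3) ?_ h5).mono (by simp only [List.length_cons]; omega)
    apply lookThen_runs
    rw [h]
    exact seq_runs (onT_runs (push_runs b l) _ _)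
      (seq_runs (onC_runs (moveT_runs Dir.left (tp u (b :: v))) _ _) (ret_runs _ _))

/-- The counting program. -/
def cntProg : Prog (ioDev α Bool (tapeDev (Option Bool))) Unit :=
  (cntLoop p).seq ((onC walkT).seq
    ((onC (doAct (D := tapeDev (Option Bool)) (none, Dir.left))).seq
    ((onC (doAct (D := tapeDev (Option Bool)) (none, Dir.left))).seq
    (outLoop.seq (passL (fun _ => []))))))

lemma bits_length (n : ℕ) : (bits n).length ≤ n := by
  have h : ∀ l : List Bool, (incL l).length ≤ l.length + 1 := by
    intro l
    induction l with
    | nil => simp [incL]
    | cons b l ih => cases b <;> simp [incL]; exact ih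
  induction n with
  | zero => rfl
  | succ n ih =>
    rw [bits_succ]
    exact (h _).trans (by omega)

/-- The binary notation, least significant bit first and without the leading bit, of the number
of letters satisfying `p`, is a linear-time function. -/
lemma LinFun.count : LinFun (fun w : List α => (bits (w.countP p)).dropLast) := by
  refine ⟨tapeDev (Option Bool), Impl.tape (Option Bool) none, cntProg p, 30, fun w => ?_,
    fun w l => ?_⟩
  · rw [List.length_dropLast]
    have h1 := bits_length (w.countP p)
    have h2 := List.countP_le_length (p := p) (l := w)
    omega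
  · have e : (Impl.tape (Option Bool) none).init = tp [] [] := by
      rw [tp_nil]; rfl
    rw [e]
    obtain ⟨t, ht, h1⟩ := cntLoop_runs p w (tp [] l) [] []
    set B := incL^[w.countP p] [] with hB
    have hB' : B = bits (w.countP p) := rfl
    have hBl : B.length ≤ w.length := by
      rw [hB']
      exact (bits_length _).trans List.countP_le_length
    rw [List.append_nil] at h1
    have h2 := onC_runs (α := α) (walkT_runs B []) (tp w.reverse []) (tp [] l)
    rw [List.append_nil] at h2
    have h3 := onC_runs (α := α) (moveT_runs Dir.left (tp B.reverse []))
      (tp w.reverse []) (tp [] l)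
    have htc : tc ([] : List Bool) = 0 := rfl
    -- after the first left move
    obtain ⟨v, r, hr, hv⟩ : ∃ v r : List Bool, (tp B.reverse []).move Dir.left = tp r v ∧
        r.reverse = B.dropLast := by
      rcases hBr : B.reverse with _ | ⟨b, r⟩
      · refine ⟨[], [], tp_nil_move Dir.left, ?_⟩
        have : B = [] := by simpa using hBr
        rw [this]; rfl
      · refine ⟨[b], r, tp_left r [] b, ?_⟩
        have : B = r.reverse ++ [b] := by
          have := congrArg List.reverse hBr
          simpa using this
        rw [this]; simp
    rw [hr] at h3
    have h4 := onC_runs (α := α) (moveT_runs Dir.left (tp r v))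
      (tp w.reverse []) (tp [] l)
    have h5 := outLoop_runs (tp w.reverse []) r v l
    have hrl : r.length ≤ w.length := by
      have := congrArg List.length hv
      rw [List.length_reverse, List.length_dropLast] at this
      omega
    have h6 := passL_runs (α := α) (β := Bool)
      (D := tapeDev (Option Bool)) (fun _ => []) 0 (by simp) w.reverse [] (r.reverse ++ l)
      (tpL (r.reverse ++ v))
    have e1 : (w.reverse.flatMap fun _ => ([] : List Bool)) = [] := by simp
    rw [e1, List.reverse_nil, List.nil_append, List.reverse_reverse, List.append_nil] at h6
    refine ⟨tpL (r.reverse ++ v), ?_⟩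
    show (cntProg p).Runs (tp [] w, tp [] l, tp [] []) _ ()
      (tp [] w, tp [] ((bits (List.countP p w)).dropLast ++ l), tpL (r.reverse ++ v))
    rw [← hB', ← hv]
    refine (seq_runs h1 (seq_runs h2 (seq_runs h3 (seq_runs h4 (seq_runs h5 h6))))).mono ?_
    rw [List.length_reverse]
    omega

end count

section markBin

variable {α : Type}

/-- letters of the second summand are letters, the others are errors -/
def toSym : Bool ⊕ α → Option (Option α)
  | Sum.inl _ => none
  | Sum.inr x => some (some x)

/-- Read bits (most significant first), then mark that many letters. -/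
def markBin : List Bool → List (Bool ⊕ α) → List (Option (α × Bool))
  | C, Sum.inl b :: u => markBin (b :: C) u
  | C, [] => markR (val C) []
  | C, Sum.inr x :: u => markR (val C) (some (some x) :: u.map toSym)

lemma markBin_length (u : List (Bool ⊕ α)) : ∀ C, (markBin C u).length ≤ u.length + 1 := by
  induction u with
  | nil => intro C; exact markR_length [] _
  | cons x u ih =>
    intro C
    rcases x with b | x
    · rw [markBin]
      have := ih (b :: C)
      simp only [List.length_cons]
      omega
    · rw [markBin]
      have := markR_length (some (some x) :: u.map toSym) (val C)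
      simpa using this

variable [Finite α]

/-- the device of the program -/
abbrev mbDev (α : Type) : Device := ioDev (Bool ⊕ α) (Option (α × Bool)) (tapeDev (Option Bool))

/-- read the bits -/
def mb1 : Prog (mbDev α) Unit :=
  loop (lookThen (D := mbDev α) (fun o => o.1) fun o =>
    match o with
    | some (Sum.inl b) => (onC (push b)).seq (stepR.seq (ret none))
    | _ => ret (some ()))

lemma mb1_runs (v : List (Bool ⊕ α)) (y : Tape (Option (Option (α × Bool)))) :
    ∀ (u : List (Bool ⊕ α)) (C : List Bool), ∃ (u' v' : List (Bool ⊕ α)) (C' : List Bool),
      u'.reverse ++ v' = u.reverse ++ v ∧ C'.length + v'.length ≤ C.length + v.length ∧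
      markBin C v = markR (val C') (v'.map toSym) ∧
      (mb1 (α := α)).Runs (tp u v, y, tp [] C) (4 * v.length) () (tp u' v', y, tp [] C') := by
  induction v with
  | nil =>
    intro u C
    refine ⟨u, [], C, rfl, le_rfl, rfl, ?_⟩
    apply loop_exit
    apply lookThen_runs
    rw [obs1]
    exact ret_runs _ _
  | cons x v ih =>
    intro u C
    rcases x with b | x
    · obtain ⟨u', v', C', h1, h2, h3, h4⟩ := ih (Sum.inl b :: u) (b :: C)
      refine ⟨u', v', C', by simpa using h1, ?_, by rw [markBin]; exact h3, ?_⟩
      · simp only [List.length_cons] at h2 ⊢
        omega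
      · refine (loop_again (t := 3) ?_ h4).mono (by simp only [List.length_cons]; omega)
        apply lookThen_runs
        rw [obs1]
        exact seq_runs (onC_runs (push_runs b C) _ _)
          (seq_runs (stepR_runs u v (Sum.inl b) y _) (ret_runs _ _))
    · refine ⟨u, Sum.inr x :: v, C, rfl, le_rfl, rfl, ?_⟩
      apply loop_exit
      apply lookThen_runs
      rw [obs1]
      exact (ret_runs _ _).mono (by omega)

/-- after the counter has been found to be zero -/
def mb3 : Prog (mbDev α) Unit :=
  loop (lookThen (D := mbDev α) (fun o => o.1) fun o =>
    match o with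
    | none => ret (some ())
    | some (Sum.inl _) => (onT (push none)).seq (ret (some ()))
    | some (Sum.inr x) => (onT (push (some (x, false)))).seq (stepR.seq (ret none)))

lemma mb3_runs (v : List (Bool ⊕ α)) (d : Tape (Option Bool)) :
    ∀ (u : List (Bool ⊕ α)) (l : List (Option (α × Bool))), ∃ (u' v' : List (Bool ⊕ α)),
      u'.reverse ++ v' = u.reverse ++ v ∧
      (mb3 (α := α)).Runs (tp u v, tp [] l, d) (4 * v.length) ()
        (tp u' v', tp [] ((markR 0 (v.map toSym)).reverse ++ l), d) := by
  induction v with
  | nil =>
    intro u l
    refine ⟨u, [], rfl, ?_⟩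
    apply loop_exit
    apply lookThen_runs
    rw [obs1]
    exact ret_runs _ _
  | cons x v ih =>
    intro u l
    rcases x with b | x
    · refine ⟨u, Sum.inl b :: v, rfl, ?_⟩
      have e : (markR 0 ((Sum.inl b :: v : List (Bool ⊕ α)).map toSym)).reverse ++ l =
          none :: l := by simp [markR, toSym]
      rw [e]
      apply loop_exit
      apply lookThen_runs
      rw [obs1]
      exact (seq_runs (onT_runs (push_runs none l) _ _) (ret_runs _ _)).mono (by
        simp only [List.length_cons]; omega)
    · obtain ⟨u', v', h1, h4⟩ := ih (Sum.inr x :: u) (some (x, false) :: l)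
      refine ⟨u', v', by simpa using h1, ?_⟩
      have e : (markR 0 ((Sum.inr x :: v : List (Bool ⊕ α)).map toSym)).reverse ++ l =
          (markR 0 (v.map toSym)).reverse ++ some (x, false) :: l := by simp [markR, toSym]
      rw [e]
      refine (loop_again (t := 3) ?_ h4).mono (by simp only [List.length_cons]; omega)
      apply lookThen_runs
      rw [obs1]
      exact seq_runs (onT_runs (push_runs _ l) _ _)
        (seq_runs (stepR_runs u v (Sum.inr x) _ _) (ret_runs _ _))

/-- while the counter is positive; the result `true` means that the counter has been found to be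
zero at a letter -/
def mb2 : Prog (mbDev α) Bool :=
  loop (lookThen (D := mbDev α) (fun o => o.1) fun o =>
    match o with
    | none => (onC decP).bind fun r =>
        (if r then onT (push none) else ret ()).seq (ret (some false))
    | some (Sum.inl _) => (onT (push none)).seq (ret (some false))
    | some (Sum.inr x) => (onC decP).bind fun r => (onT (push (some (x, r)))).seq
        (stepR.seq (ret (if r then none else some true))))

lemma mb2_runs (v : List (Bool ⊕ α)) :
    ∀ (u : List (Bool ⊕ α)) (l : List (Option (α × Bool))) (C : List Bool),
      ∃ (b : Bool) (u' v' : List (Bool ⊕ α)) (l' : List (Option (α × Bool)))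
        (d : Tape (Option Bool)) (t : ℕ),
      u'.reverse ++ v' = u.reverse ++ v ∧ v'.length ≤ v.length ∧
      (b = true → (markR (val C) (v.map toSym)).reverse ++ l =
        (markR 0 (v'.map toSym)).reverse ++ l') ∧
      (b = false → (markR (val C) (v.map toSym)).reverse ++ l = l') ∧
      t ≤ 14 * v.length + 4 * fc C + 4 * C.length + 20 ∧
      (mb2 (α := α)).Runs (tp u v, tp [] l, tp [] C) t b (tp u' v', tp [] l', d) := by
  induction v with
  | nil =>
    intro u l C
    by_cases hC : val C = 0
    · obtain ⟨T, hT⟩ := decP_runs_zero C hC
      refine ⟨false, u, [], l, T, 4 * C.length + 5, rfl, le_rfl, by simp, ?_, by omega, ?_⟩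
      · intro _
        rw [hC]; rfl
      · apply loop_exit
        apply lookThen_runs
        rw [obs1]
        have hb := bind_runs (K := fun r => (if r then onT (push none) else ret ()).seq
          (ret (some false))) (onC_runs hT (tp u []) (tp [] l)) (seq_runs (ret_runs () _)
            (ret_runs (some false) _))
        exact hb.mono (by omega)
    · obtain ⟨hl, t, ht, hT⟩ := decP_runs C hC
      refine ⟨false, u, [], none :: l, tp [] (decL C), t + 2, rfl, le_rfl, by simp, ?_,
        by omega, ?_⟩
      · intro _
        obtain ⟨n, hn⟩ := Nat.exists_eq_succ_of_ne_zero hC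
        rw [hn]; rfl
      · apply loop_exit
        apply lookThen_runs
        rw [obs1]
        have hb := bind_runs (K := fun r => (if r then onT (push none) else ret ()).seq
          (ret (some false))) (onC_runs hT (tp u []) (tp [] l))
          (seq_runs (onT_runs (push_runs none l) _ _) (ret_runs (some false) _))
        exact hb.mono (by omega)
  | cons x v ih =>
    intro u l C
    rcases x with b | x
    · refine ⟨false, u, Sum.inl b :: v, none :: l, tp [] C, 2, rfl, le_rfl, by simp, ?_,
        by omega, ?_⟩
      · intro _
        simp [markR, toSym]
      · apply loop_exit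
        apply lookThen_runs
        rw [obs1]
        exact (seq_runs (onT_runs (push_runs none l) _ _) (ret_runs _ _)).mono (by omega)
    · by_cases hC : val C = 0
      · obtain ⟨T, hT⟩ := decP_runs_zero C hC
        refine ⟨true, Sum.inr x :: u, v, some (x, false) :: l, T, 4 * C.length + 5 + 3,
          by simp, by simp, ?_, by simp, ?_, ?_⟩
        · intro _
          rw [hC]
          simp [markR, toSym]
        · simp only [List.length_cons]; omega
        · apply loop_exit
          apply lookThen_runs
          rw [obs1]
          have hb := bind_runs (K := fun r => (onT (push (some (x, r)))).seq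
            (stepR.seq (ret (if r then none else some true))))
              (onC_runs hT (tp u (Sum.inr x :: v)) (tp [] l))
              (seq_runs (onT_runs (push_runs (some (x, false)) l) _ _)
              (seq_runs (stepR_runs u v (Sum.inr x) _ _) (ret_runs (some true) _)))
          exact hb.mono (by omega)
      · obtain ⟨hl, t, ht, hT⟩ := decP_runs C hC
        obtain ⟨b, u', v', l', d, t', h1, h2, h3, h4, h5, h6⟩ :=
          ih (Sum.inr x :: u) (some (x, true) :: l) (decL C)
        have hv := val_decL C hC
        have e : (markR (val C) ((Sum.inr x :: v : List (Bool ⊕ α)).map toSym)).reverse ++ l =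
            (markR (val (decL C)) (v.map toSym)).reverse ++ some (x, true) :: l := by
          rw [← hv]
          simp [markR, toSym]
        rw [hl] at h5
        refine ⟨b, u', v', l', d, t + 3 + 1 + t', by simpa using h1, by
          simp only [List.length_cons]; omega, by rw [e]; exact h3, by rw [e]; exact h4, ?_, ?_⟩
        · simp only [List.length_cons]
          omega
        · refine loop_again (t := t + 3) ?_ h6
          apply lookThen_runs
          rw [obs1]
          have hb := bind_runs (K := fun r => (onT (push (some (x, r)))).seq
            (stepR.seq (ret (if r then none else some true))))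
              (onC_runs hT (tp u (Sum.inr x :: v)) (tp [] l))
              (seq_runs (onT_runs (push_runs (some (x, true)) l) _ _)
              (seq_runs (stepR_runs u v (Sum.inr x) _ _)
                (ret_runs (none : Option Bool) _)))
          exact hb.mono (by omega)

/-- the program -/
def mbProg : Prog (mbDev α) Unit :=
  mb1.seq ((mb2.bind fun b => if b then mb3 else ret ()).seq (passL (fun _ => [])))

lemma fc_le (C : List Bool) : fc C ≤ C.length := List.count_le_length

lemma LinFun.markBin :
    LinFun (markBin [] : List (Bool ⊕ α) → List (Option (α × Bool))) := by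
  have key : LinFun (fun x : List (Bool ⊕ α) => (Helper86.markBin [] x).reverse) := by
    refine ⟨tapeDev (Option Bool), Impl.tape (Option Bool) none, mbProg, 60, fun w => ?_,
      fun w l => ?_⟩
    · rw [List.length_reverse]
      have := markBin_length w []
      omega
    · have e : (Impl.tape (Option Bool) none).init = tp [] [] := by
        rw [tp_nil]; rfl
      rw [e]
      obtain ⟨u₁, v₁, C₁, h1, h2, h3, h4⟩ := mb1_runs w (tp [] l) [] []
      rw [List.reverse_nil, List.nil_append] at h1
      have hlen1 : u₁.length + v₁.length = w.length := by
        rw [← h1]; simp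
      obtain ⟨b, u₂, v₂, l₂, d₂, t₂, h5, h6, h7, h8, h9, h10⟩ := mb2_runs v₁ u₁ l C₁
      have hlen2 : u₂.length + v₂.length = w.length := by
        have := congrArg List.length h5
        simp only [List.length_append, List.length_reverse] at this
        omega
      have hfc := fc_le C₁
      have e1 : ∀ u : List (Bool ⊕ α),
          (u.flatMap fun _ => ([] : List (Option (α × Bool)))) = [] := by intro u; simp
      simp only [List.length_nil, Nat.zero_add] at h2
      cases b with
      | true =>
        obtain ⟨u₃, v₃, h11, h12⟩ := mb3_runs v₂ d₂ u₂ l₂
        have hlen3 : u₃.length + v₃.length = w.length := by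
          have := congrArg List.length h11
          simp only [List.length_append, List.length_reverse] at this
          omega
        rw [← h7 rfl, ← h3] at h12
        have h13 := passL_runs (α := Bool ⊕ α) (β := Option (α × Bool))
          (D := tapeDev (Option Bool)) (fun _ => []) 0 (by simp) u₃ v₃
          ((Helper86.markBin [] w).reverse ++ l) d₂
        rw [e1, List.reverse_nil, List.nil_append, h11, h5, h1] at h13
        refine ⟨d₂, ?_⟩
        refine (seq_runs h4 (seq_runs (bind_runs (K := fun b => if b then mb3 else ret ()) h10 h12)
          h13)).mono ?_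
        omega
      | false =>
        have h11 := h8 rfl
        rw [← h3] at h11
        rw [← h11] at h10
        have h13 := passL_runs (α := Bool ⊕ α) (β := Option (α × Bool))
          (D := tapeDev (Option Bool)) (fun _ => []) 0 (by simp) u₂ v₂
          ((Helper86.markBin [] w).reverse ++ l) d₂
        rw [e1, List.reverse_nil, List.nil_append, h5, h1] at h13
        refine ⟨d₂, ?_⟩
        refine (seq_runs h4 (seq_runs (bind_runs (K := fun b => if b then mb3 else ret ()) h10
          (ret_runs () _)) h13)).mono ?_
        omega
  have h := LinFun.comp (LinFun.reverse (α := Option (α × Bool))) key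
  have e : (fun w : List (Bool ⊕ α) => (Helper86.markBin [] w).reverse.reverse) =
      Helper86.markBin [] := by
    funext w; simp
  rwa [e] at h

end markBin

end Pool.Agent.Helper86
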