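import Pool.Agent.Helper86.TMStack

/-!
# Linear-time functions and closure properties of LINTIME
-/

namespace Pool.Agent.Helper86

open Prog

/-- The device with an input tape, an output stack and further tapes. -/
abbrev ioDev (α β : Type) (D : Device) : Device :=
  (roDev (Option α)).prod ((tapeDev (Option β)).prod D)

section passes

variable {α β : Type} {D : Device}

/-- access to the input tape -/
def eI (α β : Type) (D : Device) : Lens (ioDev α β D) (roDev (Option α)) := Lens.fst _ _

/-- access to the output stack -/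
def eT (α β : Type) (D : Device) : Lens (ioDev α β D) (tapeDev (Option β)) :=
  (Lens.snd _ _).comp (Lens.fst _ _)

/-- access to the further tapes -/
def eD (α β : Type) (D : Device) : Lens (ioDev α β D) D :=
  (Lens.snd _ _).comp (Lens.snd _ _)

lemma liftI_runs {R : Type} {P : Prog (roDev (Option α)) R} {x x' : Tape (Option α)} {t : ℕ}
    {r : R} (h : P.Runs x t r x') (y : Tape (Option β)) (d : D.S) :
    (lift (eI α β D) P).Runs (x, y, d) t r (x', y, d) := lift_runs (eI α β D) h

lemma liftT_runs {R : Type} {P : Prog (tapeDev (Option β)) R} {y y' : Tape (Option β)} {t : ℕ}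
    {r : R} (h : P.Runs y t r y') (x : Tape (Option α)) (d : D.S) :
    (lift (eT α β D) P).Runs (x, y, d) t r (x, y', d) := lift_runs (eT α β D) h

lemma liftD_runs {R : Type} {P : Prog D R} {d d' : D.S} {t : ℕ}
    {r : R} (h : P.Runs d t r d') (x : Tape (Option α)) (y : Tape (Option β)) :
    (lift (eD α β D) P).Runs (x, y, d) t r (x, y, d') := lift_runs (eD α β D) h

/-- move the input head to the left -/
def inL (α : Type) : Prog (roDev (Option α)) Unit := doAct (D := roDev (Option α)) Dir.left

/-- move the input head to the right -/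
def inR (α : Type) : Prog (roDev (Option α)) Unit := doAct (D := roDev (Option α)) Dir.right

lemma inL_runs (T : Tape (Option α)) : (inL α).Runs T 1 () (T.move Dir.left) :=
  doAct_runs (D := roDev (Option α)) Dir.left T

lemma inR_runs (T : Tape (Option α)) : (inR α).Runs T 1 () (T.move Dir.right) :=
  doAct_runs (D := roDev (Option α)) Dir.right T

variable [Finite α]

/-- Go right over the input until a blank is found, pushing `g x` for every letter `x`. -/
def passR (g : α → List β) : Prog (ioDev α β D) Unit :=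
  loop (lookThen (D := ioDev α β D) (fun o => o.1) fun o =>
    match o with
    | none => ret (some ())
    | some x => (lift (eT α β D) (pushList (g x))).seq
        ((lift (eI α β D) (inR α)).seq (ret none)))

lemma passR_runs (g : α → List β) (K : ℕ) (hK : ∀ x, (g x).length ≤ K) (u v : List α)
    (l : List β) (d : D.S) :
    (passR g).Runs (tp u v, tp [] l, d) ((2 * K + 2) * v.length) ()
      (tp (v.reverse ++ u) [], tp [] ((v.flatMap g).reverse ++ l), d) := by
  induction v generalizing u l with
  | nil =>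
    apply loop_exit
    apply lookThen_runs
    have h : ((ioDev α β D).obs (tp u [], tp [] l, d)).1 = none := tp_zero u []
    rw [h]
    exact (ret_runs _ _).mono (by simp)
  | cons x v ih =>
    have h1 : ((ioDev α β D).obs (tp u (x :: v), tp [] l, d)).1 = some x := tp_zero u (x :: v)
    have h2 := liftT_runs (α := α) (D := D) (pushList_runs (g x) l) (tp u (x :: v)) d
    have h3 := liftI_runs (β := β) (D := D) (inR_runs (tp u (x :: v)))
      (tp [] ((g x).reverse ++ l)) d
    rw [tp_right] at h3
    have h4 := seq_runs h2 (seq_runs h3 (ret_runs (none : Option Unit) _))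
    have h5 := ih (x :: u) ((g x).reverse ++ l)
    have e1 : (v.flatMap g).reverse ++ ((g x).reverse ++ l) =
        ((x :: v).flatMap g).reverse ++ l := by simp
    have e2 : v.reverse ++ x :: u = (x :: v).reverse ++ u := by simp
    rw [e1, e2] at h5
    have h6 : (lookThen (D := ioDev α β D) (fun o => o.1) fun o =>
      match o with
      | none => ret (some ())
      | some x => (lift (eT α β D) (pushList (g x))).seq
          ((lift (eI α β D) (inR α)).seq (ret none))).Runs (tp u (x :: v), tp [] l, d)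
          (2 * K + 1) none (tp (x :: u) v, tp [] ((g x).reverse ++ l), d) := by
      apply lookThen_runs
      rw [h1]
      refine h4.mono ?_
      have := hK x
      omega
    refine (loop_again h6 h5).mono ?_
    simp only [List.length_cons]
    ring_nf
    omega

/-- Go left over the input until a blank is found, then one step back, pushing `g x` for every
letter `x`. -/
def passL (g : α → List β) : Prog (ioDev α β D) Unit :=
  loop ((lift (eI α β D) (inL α)).seq (lookThen (D := ioDev α β D) (fun o => o.1) fun o =>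
    match o with
    | none => (lift (eI α β D) (inR α)).seq (ret (some ()))
    | some x => (lift (eT α β D) (pushList (g x))).seq (ret none)))

lemma passL_runs (g : α → List β) (K : ℕ) (hK : ∀ x, (g x).length ≤ K) (u v : List α)
    (l : List β) (d : D.S) :
    (passL g).Runs (tp u v, tp [] l, d) ((2 * K + 2) * u.length + 2) ()
      (tp [] (u.reverse ++ v), tp [] ((u.flatMap g).reverse ++ l), d) := by
  induction u generalizing v l with
  | nil =>
    apply loop_exit
    have h0 := liftI_runs (β := β) (D := D) (inL_runs (tp [] v)) (tp [] l) d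
    have h1 := liftI_runs (β := β) (D := D) (inR_runs (tpL v)) (tp [] l) d
    rw [tpL_right] at h1
    refine (seq_runs (t' := 1) h0 ?_).mono (by simp)
    apply lookThen_runs
    have h : ((ioDev α β D).obs ((tp [] v).move Dir.left, tp [] l, d)).1 = none := tpL_zero v
    rw [h]
    exact seq_runs h1 (ret_runs _ _)
  | cons x u ih =>
    have h0 := liftI_runs (β := β) (D := D) (inL_runs (tp (x :: u) v)) (tp [] l) d
    rw [tp_left] at h0
    have h1 : ((ioDev α β D).obs (tp u (x :: v), tp [] l, d)).1 = some x := tp_zero u (x :: v)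
    have h2 := liftT_runs (α := α) (D := D) (pushList_runs (g x) l) (tp u (x :: v)) d
    have h4 := seq_runs h2 (ret_runs (none : Option Unit) _)
    have h5 := ih (x :: v) ((g x).reverse ++ l)
    have e1 : (u.flatMap g).reverse ++ ((g x).reverse ++ l) =
        ((x :: u).flatMap g).reverse ++ l := by simp
    have e2 : u.reverse ++ x :: v = (x :: u).reverse ++ v := by simp
    rw [e1, e2] at h5
    have h6 : ((lift (eI α β D) (inL α)).seq (lookThen (D := ioDev α β D) (fun o => o.1) fun o =>
      match o with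
      | none => (lift (eI α β D) (inR α)).seq (ret (some ()))
      | some x => (lift (eT α β D) (pushList (g x))).seq (ret none))).Runs
          (tp (x :: u) v, tp [] l, d)
          (1 + (2 * K)) none (tp u (x :: v), tp [] ((g x).reverse ++ l), d) := by
      refine seq_runs h0 ?_
      apply lookThen_runs
      rw [h1]
      refine h4.mono ?_
      have := hK x
      omega
    refine (loop_again h6 h5).mono ?_
    simp only [List.length_cons]
    ring_nf
    omega

end passes

/-- A function computed in linear time: the program pushes `f w` on the output stack and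
restores the input tape. -/
def LinFun {α β : Type} (f : List α → List β) : Prop :=
  ∃ (D : Device) (I : Impl D) (F : Prog (ioDev α β D) Unit) (c : ℕ),
    (∀ w, (f w).length ≤ c * (w.length + 1)) ∧
    ∀ w l, ∃ d', F.Runs (tp [] w, tp [] l, I.init) (c * (w.length + 1)) ()
      (tp [] w, tp [] (f w ++ l), d')

/-- the trivial device -/
abbrev unitDev : Device where
  S := Unit
  O := Unit
  A := Unit
  obs _ := ()
  act _ _ := ()
  idle := ()
  act_idle _ := rfl

/-- implementation of the trivial device -/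
def Impl.unit : Impl unitDev where
  ι := Empty
  finι := inferInstance
  Γ := fun _ => Unit
  finΓ := fun _ => inferInstance
  blank := fun _ => ()
  repr := fun _ i => i.elim
  dec := fun _ => ()
  enc := fun _ _ i => i.elim
  dec_ok := fun _ => rfl
  enc_ok := fun _ _ i => i.elim
  init := ()
  init_ok := by funext i; exact i.elim

lemma LinFun.const {α β : Type} (m : List β) : LinFun (fun _ : List α => m) := by
  refine ⟨unitDev, Impl.unit, lift (eT α β unitDev) (pushList m.reverse), 2 * m.length,
    fun w => ?_, fun w l => ⟨(), ?_⟩⟩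
  · nlinarith [Nat.zero_le (m.length * w.length)]
  · have h := liftT_runs (α := α) (D := unitDev) (pushList_runs m.reverse l) (tp [] w) ()
    rw [List.reverse_reverse] at h
    refine h.mono ?_
    rw [List.length_reverse]
    nlinarith [Nat.zero_le (m.length * w.length)]

lemma LinFun.flatMap {α β : Type} [Finite α] (g : α → List β) :
    LinFun (fun w : List α => w.flatMap g) := by
  obtain ⟨K, hK⟩ : ∃ K, ∀ x, (g x).length ≤ K := by
    have : Fintype α := Fintype.ofFinite α
    exact ⟨Finset.univ.sup (fun x => (g x).length),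
      fun x => Finset.le_sup (f := fun x => (g x).length) (Finset.mem_univ x)⟩
  refine ⟨unitDev, Impl.unit, (passR (fun _ => [])).seq (passL (fun x => (g x).reverse)),
    2 * K + 6, fun w => ?_, fun w l => ⟨(), ?_⟩⟩
  · have h : (w.flatMap g).length ≤ K * w.length := by
      induction w with
      | nil => simp
      | cons x w ih =>
        rw [List.flatMap_cons, List.length_append, List.length_cons]
        have := hK x
        nlinarith
    nlinarith [Nat.zero_le (K * w.length)]
  · have h1 := passR_runs (α := α) (β := β) (D := unitDev) (fun _ => []) 0 (by simp) [] w l ()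
    have h2 := passL_runs (α := α) (β := β) (D := unitDev) (fun x => (g x).reverse) K
      (by simpa using hK) w.reverse [] l ()
    have e1 : ((w.flatMap fun _ => ([] : List β)).reverse ++ l) = l := by
      have : (w.flatMap fun _ => ([] : List β)) = [] := by simp
      rw [this]; rfl
    have e2 : (w.reverse.flatMap fun x => (g x).reverse).reverse ++ l = w.flatMap g ++ l := by
      rw [List.reverse_flatMap]
      simp [Function.comp_def]
    rw [e1, List.append_nil] at h1
    rw [e2, List.reverse_reverse, List.append_nil, List.length_reverse] at h2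
    refine (seq_runs h1 h2).mono ?_
    nlinarith [Nat.zero_le (K * w.length)]

/-- product of lenses -/
def Lens.prodMap {D D₁ E E₁ : Device} (e : Lens D D₁) (f : Lens E E₁) :
    Lens (D.prod E) (D₁.prod E₁) where
  get s := (e.get s.1, f.get s.2)
  put x s := (e.put x.1 s.1, f.put x.2 s.2)
  getO o := (e.getO o.1, f.getO o.2)
  putA a := (e.putA a.1, f.putA a.2)
  getO_obs s := by simp [e.getO_obs, f.getO_obs]
  act_put a s := by simp [e.act_put, f.act_put]
  get_put x s := by simp [e.get_put, f.get_put]
  put_put x y s := by simp [e.put_put, f.put_put]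
  put_get s := by simp [e.put_get, f.put_get]

/-- forget the second part of the further tapes -/
def lens1 (α β : Type) (D₁ D₂ : Device) : Lens (ioDev α β (D₁.prod D₂)) (ioDev α β D₁) where
  get s := (s.1, s.2.1, s.2.2.1)
  put x s := (x.1, x.2.1, (x.2.2, s.2.2.2))
  getO o := (o.1, o.2.1, o.2.2.1)
  putA a := (a.1, a.2.1, (a.2.2, D₂.idle))
  getO_obs _ := rfl
  act_put a s := by simp [D₂.act_idle]
  get_put _ _ := rfl
  put_put _ _ _ := rfl
  put_get _ := rfl

/-- forget the first part of the further tapes -/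
def lens2 (α β : Type) (D₁ D₂ : Device) : Lens (ioDev α β (D₁.prod D₂)) (ioDev α β D₂) where
  get s := (s.1, s.2.1, s.2.2.2)
  put x s := (x.1, x.2.1, (s.2.2.1, x.2.2))
  getO o := (o.1, o.2.1, o.2.2.2)
  putA a := (a.1, a.2.1, (D₁.idle, a.2.2))
  getO_obs _ := rfl
  act_put a s := by simp [D₁.act_idle]
  get_put _ _ := rfl
  put_put _ _ _ := rfl
  put_get _ := rfl

lemma LinFun.append {α β : Type} {f g : List α → List β} (hf : LinFun f) (hg : LinFun g) :
    LinFun (fun w => f w ++ g w) := by
  obtain ⟨D₁, I₁, F, c₁, hF, hF'⟩ := hf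
  obtain ⟨D₂, I₂, G, c₂, hG, hG'⟩ := hg
  refine ⟨D₁.prod D₂, I₁.prod I₂, (lift (lens2 α β D₁ D₂) G).seq (lift (lens1 α β D₁ D₂) F),
    c₁ + c₂, fun w => ?_, fun w l => ?_⟩
  · rw [List.length_append, add_mul]
    exact add_le_add (hF w) (hG w)
  · obtain ⟨d₂, h₂⟩ := hG' w l
    obtain ⟨d₁, h₁⟩ := hF' w (g w ++ l)
    have h₂' := lift_runs (lens2 α β D₁ D₂) (s := (tp [] w, tp [] l, (I₁.init, I₂.init))) h₂
    have h₁' := lift_runs (lens1 α β D₁ D₂) (s := (tp [] w, tp [] (g w ++ l), (I₁.init, d₂))) h₁
    refine ⟨(d₁, d₂), ?_⟩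
    rw [List.append_assoc]
    refine (seq_runs h₂' h₁').mono ?_
    rw [add_mul]; omega

/-- The input and a middle tape: lens for the first function of a composition. -/
def lensA (α β γ : Type) (D₁ E : Device) :
    Lens (ioDev α γ ((tapeDev (Option β)).prod (D₁.prod E))) (ioDev α β D₁) where
  get s := (s.1, s.2.2.1, s.2.2.2.1)
  put x s := (x.1, s.2.1, (x.2.1, (x.2.2, s.2.2.2.2)))
  getO o := (o.1, o.2.2.1, o.2.2.2.1)
  putA a := (a.1, (tapeDev (Option γ)).idle, (a.2.1, (a.2.2, E.idle)))
  getO_obs _ := rfl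
  act_put a s := by simp [E.act_idle]; rfl
  get_put _ _ := rfl
  put_put _ _ _ := rfl
  put_get _ := rfl

/-- The middle tape and the output tape: lens for the second function of a composition. -/
def lensB (α β γ : Type) (D₁ D₂ : Device) :
    Lens (ioDev α γ ((tapeDev (Option β)).prod (D₁.prod D₂))) (ioDev β γ D₂) where
  get s := (s.2.2.1, s.2.1, s.2.2.2.2)
  put x s := (s.1, x.2.1, (x.1, (s.2.2.2.1, x.2.2)))
  getO o := (o.2.2.1, o.2.1, o.2.2.2.2)
  putA a := ((roDev (Option α)).idle, a.2.1, ((none, a.1), (D₁.idle, a.2.2)))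
  getO_obs _ := rfl
  act_put a s := by simp [D₁.act_idle]; rfl
  get_put _ _ := rfl
  put_put _ _ _ := rfl
  put_get _ := rfl

lemma LinFun.comp {α β γ : Type} [Finite β] {g : List β → List γ} {f : List α → List β}
    (hg : LinFun g) (hf : LinFun f) : LinFun (fun w => g (f w)) := by
  obtain ⟨D₁, I₁, F, c₁, hF, hF'⟩ := hf
  obtain ⟨D₂, I₂, G, c₂, hG, hG'⟩ := hg
  refine ⟨(tapeDev (Option β)).prod (D₁.prod D₂), (Impl.tape (Option β) none).prod (I₁.prod I₂),
    (lift (lensA α β γ D₁ D₂) F).seq (lift (lensB α β γ D₁ D₂) G), c₁ + c₂ * (c₁ + 1), ?_, ?_⟩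
  · intro w
    refine (hG (f w)).trans ?_
    have := hF w
    nlinarith [Nat.zero_le (c₁ * (w.length + 1)), Nat.zero_le (c₂ * (c₁ * (w.length + 1)))]
  · intro w l
    obtain ⟨d₁, h₁⟩ := hF' w []
    obtain ⟨d₂, h₂⟩ := hG' (f w) l
    rw [List.append_nil] at h₁
    have e : (Impl.tape (Option β) none).init = tp [] [] := by rw [tp_nil]; rfl
    have h₁' := lift_runs (lensA α β γ D₁ D₂)
      (s := (tp [] w, tp [] l, (tp [] [], (I₁.init, I₂.init)))) h₁
    have h₂' := lift_runs (lensB α β γ D₁ D₂)
      (s := (tp [] w, tp [] l, (tp [] (f w), (d₁, I₂.init)))) h₂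
    refine ⟨(tp [] (f w), (d₁, d₂)), ?_⟩
    have h₃ := (seq_runs h₁' h₂').mono (t' := (c₁ + c₂ * (c₁ + 1)) * (w.length + 1)) (by
      have := hF w
      nlinarith [Nat.zero_le (c₁ * (w.length + 1)), Nat.zero_le (c₂ * (c₁ * (w.length + 1)))])
    rw [← e] at h₃
    exact h₃

/-- The middle tape and work tapes of a machine. -/
def lensM (α β γ : Type) (D₁ E : Device) :
    Lens (ioDev α γ ((tapeDev (Option β)).prod (D₁.prod E))) ((roDev (Option β)).prod E) where
  get s := (s.2.2.1, s.2.2.2.2)
  put x s := (s.1, s.2.1, (x.1, (s.2.2.2.1, x.2)))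
  getO o := (o.2.2.1, o.2.2.2.2)
  putA a := ((roDev (Option α)).idle, (tapeDev (Option γ)).idle, ((none, a.1), (D₁.idle, a.2)))
  getO_obs _ := rfl
  act_put a s := by simp [D₁.act_idle]; exact ⟨rfl, rfl⟩
  get_put _ _ := rfl
  put_put _ _ _ := rfl
  put_get _ := rfl

/-- LINTIME is closed under inverse images of linear-time functions. -/
theorem LINTIME.preimage {α β : Type} [Finite β] {f : List α → List β} (hf : LinFun f)
    {L : Language β} (hL : LINTIME L) : LINTIME {w | f w ∈ L} := by
  obtain ⟨D₁, I₁, F, c₁, hF, hF'⟩ := hf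
  obtain ⟨M, c, hM⟩ := hL
  have := M.finι
  have := M.finΓ
  let P : Prog (ioDev α Empty ((tapeDev (Option β)).prod (D₁.prod (workDev M.Γ)))) Bool :=
    (lift (lensA α β Empty D₁ (workDev M.Γ)) F).seq (lift (lensM α β Empty D₁ (workDev M.Γ)) M.prog)
  let I : Impl ((tapeDev (Option Empty)).prod
      ((tapeDev (Option β)).prod (D₁.prod (workDev M.Γ)))) :=
    (Impl.tape (Option Empty) none).prod
      ((Impl.tape (Option β) none).prod (I₁.prod (Impl.work M.Γ M.blank)))
  have key : ∀ w b, M.run (c * ((f w).length + 1)) (M.init (f w)) = some b →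
      ∃ s', P.Runs (inputTape w, I.init) ((c₁ + c * (c₁ + 1)) * (w.length + 1)) b s' := by
    intro w b hb
    obtain ⟨s', hs'⟩ := M.prog_runs hb
    obtain ⟨d₁, h₁⟩ := hF' w []
    rw [List.append_nil] at h₁
    have e : (Impl.tape (Option β) none).init = tp [] [] := by rw [tp_nil]; rfl
    have h₁' := lift_runs (lensA α β Empty D₁ (workDev M.Γ))
      (s := (tp [] w, (Impl.tape (Option Empty) none).init,
        (tp [] [], (I₁.init, fun i _ => M.blank i)))) h₁
    rw [inputTape_eq] at hs'
    have h₂' := lift_runs (lensM α β Empty D₁ (workDev M.Γ))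
      (s := (tp [] w, (Impl.tape (Option Empty) none).init,
        (tp [] (f w), (d₁, fun i _ => M.blank i)))) hs'
    have h₃ := (seq_runs h₁' h₂').mono (t' := (c₁ + c * (c₁ + 1)) * (w.length + 1)) (by
      have := hF w
      nlinarith [Nat.zero_le (c₁ * (w.length + 1)), Nat.zero_le (c * (c₁ * (w.length + 1)))])
    rw [← e, ← inputTape_eq] at h₃
    exact ⟨_, h₃⟩
  exact LINTIME_of_prog I P _ (c₁ + c * (c₁ + 1)) (fun w hw => key w true ((hM (f w)).1 hw))
    (fun w hw => key w false ((hM (f w)).2 hw))

/-- The input tape and the last work tapes. -/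
def lensN (α γ : Type) (D₁ D₂ D₃ E : Device) :
    Lens (ioDev α γ (D₁.prod (D₂.prod (D₃.prod E)))) ((roDev (Option α)).prod E) where
  get s := (s.1, s.2.2.2.2.2)
  put x s := (x.1, s.2.1, (s.2.2.1, (s.2.2.2.1, (s.2.2.2.2.1, x.2))))
  getO o := (o.1, o.2.2.2.2.2)
  putA a := (a.1, (tapeDev (Option γ)).idle, (D₁.idle, (D₂.idle, (D₃.idle, a.2))))
  getO_obs _ := rfl
  act_put a s := by simp [D₁.act_idle, D₂.act_idle, D₃.act_idle]; rfl
  get_put _ _ := rfl
  put_put _ _ _ := rfl
  put_get _ := rfl

lemma LinFun.id {α : Type} [Finite α] : LinFun (fun w : List α => w) := by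
  have h := LinFun.flatMap (α := α) (fun x => [x])
  have e : (fun w : List α => w.flatMap fun x => [x]) = fun w => w := by
    funext w; simp
  rwa [e] at h

/-- LINTIME is closed under Boolean operations. -/
theorem LINTIME.bool {α : Type} [Finite α] (op : Bool → Bool → Bool) {L₁ L₂ L₃ : Language α}
    (h₁ : LINTIME L₁) (h₂ : LINTIME L₂)
    (h : ∀ w b₁ b₂, (b₁ = true ↔ w ∈ L₁) → (b₂ = true ↔ w ∈ L₂) → (op b₁ b₂ = true ↔ w ∈ L₃)) :
    LINTIME L₃ := by
  classical
  obtain ⟨D₁, I₁, F, c, hF, hF'⟩ := LinFun.id (α := α)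
  obtain ⟨M₁, c₁, hM₁⟩ := h₁
  obtain ⟨M₂, c₂, hM₂⟩ := h₂
  have := M₁.finι
  have := M₁.finΓ
  have := M₂.finι
  have := M₂.finΓ
  let W₁ := workDev M₁.Γ
  let W₂ := workDev M₂.Γ
  let P : Prog (ioDev α Empty ((tapeDev (Option α)).prod (D₁.prod (W₁.prod W₂)))) Bool :=
    (lift (lensA α α Empty D₁ (W₁.prod W₂)) F).seq
      ((lift ((lensM α α Empty D₁ (W₁.prod W₂)).comp
        ((Lens.id _).prodMap (Lens.fst W₁ W₂))) M₁.prog).bind fun b₁ =>
          (lift (lensN α Empty (tapeDev (Option α)) D₁ W₁ W₂) M₂.prog).bind fun b₂ =>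
            ret (op b₁ b₂))
  let I : Impl ((tapeDev (Option Empty)).prod
      ((tapeDev (Option α)).prod (D₁.prod (W₁.prod W₂)))) :=
    (Impl.tape (Option Empty) none).prod
      ((Impl.tape (Option α) none).prod
        (I₁.prod ((Impl.work M₁.Γ M₁.blank).prod (Impl.work M₂.Γ M₂.blank))))
  have key : ∀ w b₁ b₂, M₁.run (c₁ * (w.length + 1)) (M₁.init w) = some b₁ →
      M₂.run (c₂ * (w.length + 1)) (M₂.init w) = some b₂ →
      ∃ s', P.Runs (inputTape w, I.init) ((c + c₁ + c₂) * (w.length + 1)) (op b₁ b₂) s' := by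
    intro w b₁ b₂ hb₁ hb₂
    obtain ⟨s₁, hs₁⟩ := M₁.prog_runs hb₁
    obtain ⟨s₂, hs₂⟩ := M₂.prog_runs hb₂
    obtain ⟨d₁, h₁⟩ := hF' w []
    rw [List.append_nil] at h₁
    rw [inputTape_eq] at hs₁ hs₂
    have e : (Impl.tape (Option α) none).init = tp [] [] := by rw [tp_nil]; rfl
    have h₁' := lift_runs (lensA α α Empty D₁ (W₁.prod W₂))
      (s := (tp [] w, (Impl.tape (Option Empty) none).init,
        (tp [] [], (I₁.init, ((fun i _ => M₁.blank i), (fun i _ => M₂.blank i)))))) h₁
    have h₂' := lift_runs ((lensM α α Empty D₁ (W₁.prod W₂)).comp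
        ((Lens.id _).prodMap (Lens.fst W₁ W₂)))
      (s := (tp [] w, (Impl.tape (Option Empty) none).init,
        (tp [] w, (d₁, ((fun i _ => M₁.blank i), (fun i _ => M₂.blank i)))))) hs₁
    have h₃' := lift_runs (lensN α Empty (tapeDev (Option α)) D₁ W₁ W₂)
      (s := (tp [] w, (Impl.tape (Option Empty) none).init,
        (s₁.1, (d₁, (s₁.2, (fun i _ => M₂.blank i)))))) hs₂
    have h₄ := (seq_runs h₁' (bind_runs (K := fun b₁ =>
          (lift (lensN α Empty (tapeDev (Option α)) D₁ W₁ W₂) M₂.prog).bind fun b₂ =>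
            ret (op b₁ b₂)) h₂' (bind_runs (K := fun b₂ => ret (op b₁ b₂)) h₃'
              (ret_runs _ _)))).mono (t' := (c + c₁ + c₂) * (w.length + 1)) (by
      rw [add_mul, add_mul]; omega)
    rw [← e, ← inputTape_eq] at h₄
    exact ⟨_, h₄⟩
  have h1 : ∀ w, M₁.run (c₁ * (w.length + 1)) (M₁.init w) = some (decide (w ∈ L₁)) := by
    intro w
    by_cases hw : w ∈ L₁
    · simp [hw, (hM₁ w).1 hw]
    · simp [hw, (hM₁ w).2 hw]
  have h2 : ∀ w, M₂.run (c₂ * (w.length + 1)) (M₂.init w) = some (decide (w ∈ L₂)) := by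
    intro w
    by_cases hw : w ∈ L₂
    · simp [hw, (hM₂ w).1 hw]
    · simp [hw, (hM₂ w).2 hw]
  refine LINTIME_of_prog I P _ (c + c₁ + c₂) (fun w hw => ?_) (fun w hw => ?_)
  · have h3 := key w _ _ (h1 w) (h2 w)
    have h4 := (h w (decide (w ∈ L₁)) (decide (w ∈ L₂)) (by simp) (by simp)).2 hw
    rwa [h4] at h3
  · have h3 := key w _ _ (h1 w) (h2 w)
    have h4 := mt (h w (decide (w ∈ L₁)) (decide (w ∈ L₂)) (by simp) (by simp)).1 hw
    rw [Bool.not_eq_true] at h4
    rwa [h4] at h3

theorem LINTIME.inter {α : Type} [Finite α] {L₁ L₂ : Language α}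
    (h₁ : LINTIME L₁) (h₂ : LINTIME L₂) : LINTIME {w | w ∈ L₁ ∧ w ∈ L₂} :=
  LINTIME.bool (fun a b => a && b) h₁ h₂ (by
    intro w b₁ b₂ h1 h2
    show (b₁ && b₂) = true ↔ (w ∈ L₁ ∧ w ∈ L₂)
    rw [Bool.and_eq_true, h1, h2])

end Pool.Agent.Helper86
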