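import Pool.Agent.Helper86.TMProg

/-!
# Compiling programs to machines
-/

namespace Pool.Agent.Helper86

/-- An implementation of a device by finitely many work tapes with finite alphabets. -/
structure Impl (D : Device) where
  ι : Type
  finι : Finite ι
  Γ : ι → Type
  finΓ : ∀ i, Finite (Γ i)
  blank : ∀ i, Γ i
  repr : D.S → (∀ i, Tape (Γ i))
  dec : (∀ i, Γ i) → D.O
  enc : D.A → (∀ i, Γ i) → (∀ i, Γ i × Dir)
  dec_ok : ∀ s, dec (fun i => repr s i 0) = D.obs s
  enc_ok : ∀ a s i, repr (D.act a s) i =
    ((repr s i).write (enc a (fun i => repr s i 0) i).1).move (enc a (fun i => repr s i 0) i).2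
  init : D.S
  init_ok : repr init = fun i _ => blank i

lemma Tape.write_self {Γ : Type} (T : Tape Γ) : T.write (T 0) = T := by
  unfold Tape.write
  exact Function.update_eq_self 0 T

/-- A single tape. -/
def Impl.tape (Γ : Type) [hΓ : Finite Γ] (blank : Γ) : Impl (tapeDev Γ) where
  ι := Unit
  finι := inferInstance
  Γ := fun _ => Γ
  finΓ := fun _ => hΓ
  blank := fun _ => blank
  repr := fun T _ => T
  dec := fun o => o ()
  enc := fun a o _ => (a.1.getD (o ()), a.2)
  dec_ok := fun _ => rfl
  enc_ok := by
    intro a s i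
    rcases a with ⟨_ | x, d⟩
    · show Tape.move d s = Tape.move d (Tape.write (s 0) s)
      rw [Tape.write_self]
    · rfl
  init := fun _ => blank
  init_ok := rfl

/-- The work tapes of a machine. -/
def Impl.work {ι : Type} [hι : Finite ι] (Γ : ι → Type) [hΓ : ∀ i, Finite (Γ i)]
    (blank : ∀ i, Γ i) : Impl (workDev Γ) where
  ι := ι
  finι := hι
  Γ := Γ
  finΓ := hΓ
  blank := blank
  repr := fun T => T
  dec := fun o => o
  enc := fun a o => match a with
    | none => fun i => (o i, Dir.stay)
    | some a => a
  dec_ok := fun _ => rfl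
  enc_ok := by
    intro a s i
    cases a with
    | none =>
      show s i = ((s i).write (s i 0)).move Dir.stay
      rw [Tape.write_self]; rfl
    | some a => rfl
  init := fun i _ => blank i
  init_ok := rfl

/-- Products. -/
def Impl.prod {D E : Device} (I : Impl D) (J : Impl E) : Impl (D.prod E) where
  ι := I.ι ⊕ J.ι
  finι := by
    have := I.finι
    have := J.finι
    infer_instance
  Γ := Sum.elim I.Γ J.Γ
  finΓ := by
    rintro (i | i)
    · exact I.finΓ i
    · exact J.finΓ i
  blank := fun i => match i with
    | Sum.inl i => I.blank i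
    | Sum.inr i => J.blank i
  repr := fun s i => match i with
    | Sum.inl i => I.repr s.1 i
    | Sum.inr i => J.repr s.2 i
  dec := fun o => (I.dec (fun i => o (Sum.inl i)), J.dec (fun i => o (Sum.inr i)))
  enc := fun a o i => match i with
    | Sum.inl i => I.enc a.1 (fun i => o (Sum.inl i)) i
    | Sum.inr i => J.enc a.2 (fun i => o (Sum.inr i)) i
  dec_ok := by
    intro s
    show (I.dec (fun i => I.repr s.1 i 0), J.dec (fun i => J.repr s.2 i 0)) = _
    rw [I.dec_ok, J.dec_ok]
  enc_ok := by
    rintro a s (i | i)
    · exact I.enc_ok a.1 s.1 i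
    · exact J.enc_ok a.2 s.2 i
  init := (I.init, J.init)
  init_ok := by
    funext i
    rcases i with i | i
    · exact congrFun I.init_ok i
    · exact congrFun J.init_ok i

/-- The machine of a program acting on a read-only input tape and an implemented device. -/
def Prog.toMachine {α : Type} {D : Device} (I : Impl D)
    (P : Prog ((roDev (Option α)).prod D) Bool) : Machine α where
  ι := I.ι
  finι := I.finι
  Γ := I.Γ
  finΓ := I.finΓ
  blank := I.blank
  Q := P.Q
  finQ := P.finQ
  start := P.start
  δ q o x :=
    match P.δ q (o, I.dec x) with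
    | Sum.inl b => Sum.inl b
    | Sum.inr (q', a) => Sum.inr (q', a.1, I.enc a.2 x)

lemma Machine.run_succ {α : Type} (M : Machine α) {b : Bool} :
    ∀ (t : ℕ) (c : M.Cfg), M.run t c = some b → M.run (t + 1) c = some b := by
  intro t
  induction t with
  | zero =>
    intro c h
    unfold Machine.run at h ⊢
    split at h
    · simp_all
    · exact absurd h (by simp)
  | succ t ih =>
    intro c h
    unfold Machine.run at h ⊢
    split at h
    · simp_all
    · exact ih _ h

lemma Machine.run_mono {α : Type} (M : Machine α) {b : Bool} {t t' : ℕ} (htt : t ≤ t')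
    {c : M.Cfg} (h : M.run t c = some b) : M.run t' c = some b := by
  induction htt with
  | refl => exact h
  | step _ ih => exact M.run_succ _ _ ih

lemma Prog.toMachine_run {α : Type} {D : Device} (I : Impl D)
    (P : Prog ((roDev (Option α)).prod D) Bool) {q : P.Q} {s s' : ((roDev (Option α)).prod D).S}
    {t : ℕ} {b : Bool} (h : P.Ends q s t b s') :
    (P.toMachine I).run t ⟨q, s.1, I.repr s.2⟩ = some b := by
  induction h with
  | @halt q s r h =>
    have h1 : (P.toMachine I).step ⟨q, s.1, I.repr s.2⟩ = Sum.inl r := by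
      have h2 : P.δ q (s.1 0, I.dec (fun i => I.repr s.2 i 0)) = Sum.inl r := by
        rw [I.dec_ok]; exact h
      simp only [Machine.step, Prog.toMachine, h2]
    unfold Machine.run
    rw [h1]
  | @step q s q' a t r s' h _ ih =>
    have h1 : (P.toMachine I).step ⟨q, s.1, I.repr s.2⟩ =
        Sum.inr ⟨q', s.1.move a.1, I.repr (D.act a.2 s.2)⟩ := by
      have h2 : P.δ q (s.1 0, I.dec (fun i => I.repr s.2 i 0)) = Sum.inr (q', a) := by
        rw [I.dec_ok]; exact h
      simp only [Machine.step, Prog.toMachine, h2]
      congr 2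
      funext i
      exact (I.enc_ok a.2 s.2 i).symm
    unfold Machine.run
    rw [h1]
    exact ih

/-- A language decided by a program in linear time is in `LINTIME`. -/
theorem LINTIME_of_prog {α : Type} {D : Device} (I : Impl D)
    (P : Prog ((roDev (Option α)).prod D) Bool) (L : Language α) (c : ℕ)
    (h1 : ∀ w ∈ L, ∃ s', P.Runs (inputTape w, I.init) (c * (w.length + 1)) true s')
    (h2 : ∀ w ∉ L, ∃ s', P.Runs (inputTape w, I.init) (c * (w.length + 1)) false s') :
    LINTIME L := by
  refine ⟨P.toMachine I, c, fun w => ⟨fun hw => ?_, fun hw => ?_⟩⟩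
  · obtain ⟨s', t, ht, h⟩ := h1 w hw
    have := Prog.toMachine_run I P h
    rw [I.init_ok] at this
    exact Machine.run_mono _ ht this
  · obtain ⟨s', t, ht, h⟩ := h2 w hw
    have := Prog.toMachine_run I P h
    rw [I.init_ok] at this
    exact Machine.run_mono _ ht this

end Pool.Agent.Helper86
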