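import Pool.Agent.Helper86.TMPad

/-!
# Concatenation in LINTIME and left concatenation with `{a}*`
-/

namespace Pool.Agent.Helper86

open Prog
open scoped Computability

lemma LINTIME.congr {α : Type} {L L' : Language α} (h : ∀ w, w ∈ L ↔ w ∈ L')
    (hL : LINTIME L) : LINTIME L' := by
  have e : L = L' := Set.ext h
  rwa [e] at hL

lemma Machine.run_unique {α : Type} (M : Machine α) {k k' : ℕ} {c : M.Cfg} {b b' : Bool}
    (h : M.run k c = some b) (h' : M.run k' c = some b') : b = b' := by
  have h1 := M.run_mono (le_max_left k k') h
  have h2 := M.run_mono (le_max_right k k') h'
  rw [h1] at h2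
  exact Option.some.inj h2

section split

variable {α : Type}

/-- the letters as symbols of the marking alphabet -/
def lett (w : List α) : List (Option (Option α)) := w.map fun x => some (some x)

/-- words with the first `j` letters marked -/
def marked (j : ℕ) (w : List α) : List (Option (α × Bool)) :=
  (w.take j).map (fun x => some (x, true)) ++ (w.drop j).map (fun x => some (x, false))

lemma markR_lett (w : List α) : ∀ j, j ≤ w.length → markR j (lett w) = marked j w := by
  induction w with
  | nil =>
    intro j hj
    have : j = 0 := by simpa using hj
    subst this
    rfl
  | cons x w ih =>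
    intro j hj
    rw [show lett (x :: w) = some (some x) :: lett w from rfl, markR,
      ih (j - 1) (by simp at hj; omega)]
    cases j with
    | zero => simp [marked]
    | succ j => simp [marked]

lemma markR_clean (v : List (Option (Option α))) : ∀ j, none ∉ markR j v →
    ∃ w : List α, v = lett w ∧ j ≤ w.length := by
  induction v with
  | nil =>
    intro j hj
    cases j with
    | zero => exact ⟨[], rfl, le_rfl⟩
    | succ j => simp [markR] at hj
  | cons x v ih =>
    intro j hj
    rcases x with _ | _ | x
    · simp [markR] at hj
    · simp [markR] at hj
    · have h1 : none ∉ markR (j - 1) v := by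
        intro h
        apply hj
        rw [markR]
        exact List.mem_cons_of_mem _ h
      obtain ⟨w, hw, hl⟩ := ih (j - 1) h1
      refine ⟨x :: w, by rw [hw]; rfl, ?_⟩
      simp only [List.length_cons]
      omega

lemma markTop_ticks (j : ℕ) (v : List (Option (Option α))) : ∀ k,
    markTop k (List.replicate j none ++ some none :: v) = markR (k + j) v := by
  induction j with
  | zero => intro k; rfl
  | succ j ih =>
    intro k
    rw [List.replicate_succ, List.cons_append]
    show markTop (k + 1) _ = _
    rw [ih (k + 1)]
    congr 1
    omega

lemma markTop_clean (v : List (Option (Option α))) : ∀ k, none ∉ markTop k v →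
    ∃ j v', v = List.replicate j none ++ some none :: v' := by
  induction v with
  | nil => intro k hk; simp [markTop] at hk
  | cons x v ih =>
    intro k hk
    rcases x with _ | _ | x
    · obtain ⟨j, v', h⟩ := ih (k + 1) hk
      exact ⟨j + 1, v', by rw [List.replicate_succ, List.cons_append, h]⟩
    · exact ⟨0, v, rfl⟩
    · simp [markTop] at hk

/-- The words (tick)^j separator w with `j ≤ |w|`, the first `j` letters of `w` forming a word of
`L₁` and the others a word of `L₂`. -/
def splitLang (L₁ L₂ : Language α) : Language (Option (Option α)) :=
  {x | ∃ (j : ℕ) (w : List α), x = List.replicate j none ++ some none :: lett w ∧ j ≤ w.length ∧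
    w.take j ∈ L₁ ∧ w.drop j ∈ L₂}

/-- keep the marked letters -/
def keepT : Option (α × Bool) → List α
  | some (x, true) => [x]
  | _ => []

/-- keep the unmarked letters -/
def keepF : Option (α × Bool) → List α
  | some (x, false) => [x]
  | _ => []

lemma marked_keepT (j : ℕ) (w : List α) : (marked j w).flatMap keepT = w.take j := by
  have h1 : ∀ l : List α, (l.map fun x => some (x, true)).flatMap keepT = l := by
    intro l
    induction l with
    | nil => rfl
    | cons x l ih => rw [List.map_cons, List.flatMap_cons, ih]; rfl
  have h2 : ∀ l : List α, (l.map fun x => some (x, false)).flatMap keepT = [] := by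
    intro l
    induction l with
    | nil => rfl
    | cons x l ih => rw [List.map_cons, List.flatMap_cons, ih]; rfl
  rw [marked, List.flatMap_append, h1, h2, List.append_nil]

lemma marked_keepF (j : ℕ) (w : List α) : (marked j w).flatMap keepF = w.drop j := by
  have h1 : ∀ l : List α, (l.map fun x => some (x, false)).flatMap keepF = l := by
    intro l
    induction l with
    | nil => rfl
    | cons x l ih => rw [List.map_cons, List.flatMap_cons, ih]; rfl
  have h2 : ∀ l : List α, (l.map fun x => some (x, true)).flatMap keepF = [] := by
    intro l
    induction l with
    | nil => rfl
    | cons x l ih => rw [List.map_cons, List.flatMap_cons, ih]; rfl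
  rw [marked, List.flatMap_append, h1, h2, List.nil_append]

lemma none_notMem_marked (j : ℕ) (w : List α) : none ∉ marked j w := by
  unfold marked
  rw [List.mem_append]
  rintro (h | h)
  · rw [List.mem_map] at h
    obtain ⟨x, _, hx⟩ := h
    exact absurd hx (by simp)
  · rw [List.mem_map] at h
    obtain ⟨x, _, hx⟩ := h
    exact absurd hx (by simp)

lemma mem_splitLang (L₁ L₂ : Language α) (x : List (Option (Option α))) :
    x ∈ splitLang L₁ L₂ ↔ ((∀ y ∈ mark x, y ≠ none) ∧ (mark x).flatMap keepT ∈ L₁) ∧
      (mark x).flatMap keepF ∈ L₂ := by
  constructor
  · rintro ⟨j, w, rfl, hj, h1, h2⟩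
    have e : mark (List.replicate j none ++ some none :: lett w) = marked j w := by
      unfold mark
      rw [markTop_ticks, Nat.zero_add, markR_lett w j hj]
    rw [e, marked_keepT, marked_keepF]
    refine ⟨⟨?_, h1⟩, h2⟩
    intro y hy hn
    subst hn
    exact none_notMem_marked j w hy
  · rintro ⟨⟨h0, h1⟩, h2⟩
    have h0' : none ∉ markTop 0 x := fun h => h0 none h rfl
    obtain ⟨j, v, rfl⟩ := markTop_clean x 0 h0'
    have e : mark (List.replicate j none ++ some none :: v) = markR j v := by
      unfold mark
      rw [markTop_ticks, Nat.zero_add]
    have h3 : none ∉ markR j v := by
      rw [← e]; exact h0'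
    obtain ⟨w, rfl, hj⟩ := markR_clean v j h3
    rw [e, markR_lett w j hj, marked_keepT] at h1
    rw [e, markR_lett w j hj, marked_keepF] at h2
    exact ⟨j, w, rfl, hj, h1, h2⟩

lemma splitLang_LINTIME [Finite α] {L₁ L₂ : Language α} (h₁ : LINTIME L₁) (h₂ : LINTIME L₂) :
    LINTIME (splitLang L₁ L₂) := by
  have a1 : LINTIME {m : List (Option (α × Bool)) | ∀ y ∈ m, y ≠ none} :=
    (REALTIME_forall (fun y => y ≠ none)).lintime
  have a2 : LINTIME {m : List (Option (α × Bool)) | m.flatMap keepT ∈ L₁} :=
    LINTIME.preimage (LinFun.flatMap keepT) h₁
  have a3 : LINTIME {m : List (Option (α × Bool)) | m.flatMap keepF ∈ L₂} :=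
    LINTIME.preimage (LinFun.flatMap keepF) h₂
  have a4 := LINTIME.preimage LinFun.mark ((a1.inter a2).inter a3)
  exact LINTIME.congr (fun x => (mem_splitLang L₁ L₂ x).symm) a4

end split

/-- The word `(tick)^|w| separator w` followed by padding. -/
def stretch {α : Type} (c : ℕ) (w : List α) : List (Option (Option (Option α))) :=
  (w.flatMap fun _ => [some none]) ++ ([some (some none)] ++ ((w.flatMap fun x =>
    [some (some (some x))]) ++ ((w.flatMap fun _ => List.replicate (2 * (c + 1)) none) ++
      List.replicate (2 * (c + 1) + 3) none)))

lemma stretch_linFun {α : Type} [Finite α] (c : ℕ) :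
    LinFun (stretch c : List α → List (Option (Option (Option α)))) :=
  (LinFun.flatMap _).append ((LinFun.const _).append ((LinFun.flatMap _).append
    ((LinFun.flatMap _).append (LinFun.const _))))

lemma flatMap_const {α β : Type} (w : List α) (b : β) (K : ℕ) :
    (w.flatMap fun _ => List.replicate K b) = List.replicate (K * w.length) b := by
  induction w with
  | nil => simp
  | cons x w ih =>
    rw [List.flatMap_cons, ih, List.replicate_append_replicate, List.length_cons]
    congr 1
    ring

lemma stretch_eq {α : Type} (c : ℕ) (w : List α) :
    stretch c w = ((List.replicate w.length (none : Option (Option α)) ++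
      some none :: lett w).map some) ++
        List.replicate ((c + 1) * (2 * w.length + 2) + 3) none := by
  have h1 : (w.flatMap fun _ => [(some none : Option (Option (Option α)))]) =
      List.replicate w.length (some none) := by
    have := flatMap_const w (some none : Option (Option (Option α))) 1
    rwa [List.replicate_one, one_mul] at this
  have h2 : (w.flatMap fun x => [(some (some (some x)) : Option (Option (Option α)))]) =
      (lett w).map some := by
    induction w with
    | nil => rfl
    | cons x w ih =>
      have ih' := ih (by
        have := flatMap_const w (some none : Option (Option (Option α))) 1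
        rwa [List.replicate_one, one_mul] at this)
      rw [List.flatMap_cons, ih']
      rfl
  unfold stretch
  rw [h1, h2, flatMap_const, List.replicate_append_replicate]
  have h3 : 2 * (c + 1) * w.length + (2 * (c + 1) + 3) = (c + 1) * (2 * w.length + 2) + 3 := by
    ring
  rw [h3]
  simp only [List.map_append, List.map_replicate, List.map_cons, List.append_assoc,
    List.cons_append, List.nil_append]

/-- If left concatenation with `{a}*` maps `REALTIME` to `LINTIME` then `LINTIME` is closed under
concatenation. -/
theorem concat_of_star
    (h : ∀ (β : Type) [Finite β] (a : β) (P : Language β), REALTIME P →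
      LINTIME (({[a]} : Language β)∗ * P))
    {α : Type} [Finite α] {L₁ L₂ : Language α} (h₁ : LINTIME L₁) (h₂ : LINTIME L₂) :
    LINTIME (L₁ * L₂) := by
  obtain ⟨M, c, hM⟩ := splitLang_LINTIME h₁ h₂
  have hP : REALTIME (padMachine M).language := ⟨padMachine M, rfl⟩
  have h3 := h (Option (Option (Option α))) (some none) _ hP
  have h4 := LINTIME.preimage (stretch_linFun (α := α) c) h3
  have e : ∀ w : List α, stretch c w ∈
      (({[some none]} : Language (Option (Option (Option α))))∗ * (padMachine M).language) ↔
      w ∈ L₁ * L₂ := by
    intro w
    rw [Language.mem_mul, Language.mem_mul, stretch_eq]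
    constructor
    · rintro ⟨s, hs, t, ht, hst⟩
      rw [mem_kstar_singleton] at hs
      -- `s` is a block of ticks of length at most `|w|`
      set m := (c + 1) * (2 * w.length + 2) + 3 with hm
      obtain ⟨k₀, rfl⟩ : ∃ k₀, s = List.replicate k₀ (some none) :=
        ⟨s.length, List.eq_replicate_iff.mpr ⟨rfl, hs⟩⟩
      have hlen : k₀ ≤ w.length := by
        by_contra hlt
        push Not at hlt
        have h5 : (List.replicate k₀ (some none) ++ t)[w.length]? = some (some none) := by
          rw [List.getElem?_append_left (by simpa using hlt), List.getElem?_replicate,
            if_pos hlt]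
        rw [hst] at h5
        simp only [List.map_append, List.map_replicate, List.map_cons, List.append_assoc,
          List.cons_append] at h5
        rw [List.getElem?_append_right (by simp)] at h5
        simp at h5
      have ht' : t = ((List.replicate (w.length - k₀) (none : Option (Option α)) ++
          some none :: lett w).map some) ++ List.replicate m none := by
        have h6 : List.replicate k₀ (some none) ++ t = List.replicate k₀ (some none) ++
            (((List.replicate (w.length - k₀)
            (none : Option (Option α)) ++ some none :: lett w).map some) ++
              List.replicate m none) := by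
          rw [hst]
          simp only [List.map_append, List.map_replicate, List.map_cons, List.append_assoc,
            List.cons_append]
          rw [← List.append_assoc (List.replicate k₀ _), List.replicate_append_replicate]
          congr 2
          omega
        exact List.append_cancel_left h6
      rw [ht', mem_pad] at ht
      obtain ⟨k, _, hk⟩ := ht
      have h7 : List.replicate (w.length - k₀) (none : Option (Option α)) ++
          some none :: lett w ∈ splitLang L₁ L₂ := by
        by_contra hn
        have h8 := (hM _).2 hn
        exact absurd (Machine.run_unique M hk h8) (by simp)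
      obtain ⟨j, w', hx, hj, h8, h9⟩ := h7
      have key : ∀ (i j : ℕ) (v v' : List (Option (Option α))),
          List.replicate i (none : Option (Option α)) ++ some none :: v =
            List.replicate j none ++ some none :: v' → i = j ∧ v = v' := by
        intro i
        induction i with
        | zero =>
          intro j v v' h
          cases j with
          | zero => simpa using h
          | succ j => simp [List.replicate_succ] at h
        | succ i ih =>
          intro j v v' h
          cases j with
          | zero => simp [List.replicate_succ] at h
          | succ j =>
            simp only [List.replicate_succ, List.cons_append, List.cons.injEq, true_and] at h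
            obtain ⟨h1, h2⟩ := ih j v v' h
            exact ⟨by omega, h2⟩
      obtain ⟨_, hw⟩ := key _ _ _ _ hx
      have hw' : w = w' := by
        have hinj : Function.Injective (fun x : α => some (some x)) := by
          intro a b hab
          simpa using hab
        exact List.map_injective_iff.mpr hinj hw
      subst hw'
      exact ⟨w.take j, h8, w.drop j, h9, List.take_append_drop j w⟩
    · rintro ⟨u, hu, v, hv, rfl⟩
      set w := u ++ v with hw
      have hul : u.length ≤ w.length := by simp [hw]
      refine ⟨List.replicate (w.length - u.length) (some none), ?_,
        ((List.replicate u.length (none : Option (Option α)) ++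
          some none :: lett w).map some) ++
            List.replicate ((c + 1) * (2 * w.length + 2) + 3) none, ?_, ?_⟩
      · rw [mem_kstar_singleton]
        intro x hx
        exact List.eq_of_mem_replicate hx
      · rw [mem_pad]
        have hx : List.replicate u.length (none : Option (Option α)) ++ some none :: lett w ∈
            splitLang L₁ L₂ := by
          refine ⟨u.length, w, rfl, hul, ?_, ?_⟩
          · rw [hw, List.take_left']; exact hu; rfl
          · rw [hw, List.drop_left']; exact hv; rfl
        have h5 := (hM _).1 hx
        set x := List.replicate u.length (none : Option (Option α)) ++ some none :: lett w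
          with hxdef
        have hxl : x.length ≤ 2 * w.length + 1 := by
          rw [hxdef]
          simp only [List.length_append, List.length_replicate, List.length_cons, lett,
            List.length_map]
          omega
        have hxl2 : x.length + c * (x.length + 1) ≤ (c + 1) * (2 * w.length + 2) := by
          have h6 : c * (x.length + 1) ≤ c * (2 * w.length + 2) :=
            Nat.mul_le_mul_left c (by omega)
          rw [add_mul]
          omega
        refine ⟨(c + 1) * (2 * w.length + 2) - x.length, by omega, ?_⟩
        exact Machine.run_mono M (by omega) h5
      · simp only [List.map_append, List.map_replicate, List.map_cons, List.append_assoc,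
          List.cons_append]
        rw [← List.append_assoc (List.replicate (w.length - u.length) _),
          List.replicate_append_replicate]
        congr 2
        omega
  exact LINTIME.congr e h4

end Pool.Agent.Helper86
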