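import Pool.Agent.Helper86.TMConcat

/-!
# Binary counters on a tape, amortised
-/

namespace Pool.Agent.Helper86

open Prog
open scoped Computability

/-! ### lists of bits, least significant first -/

/-- increment -/
def incL : List Bool → List Bool
  | [] => [true]
  | false :: l => true :: l
  | true :: l => false :: incL l

/-- decrement (for lists containing `true`) -/
def decL : List Bool → List Bool
  | [] => []
  | true :: l => false :: l
  | false :: l => true :: decL l

/-- the value of a list of bits, least significant first -/
def val : List Bool → ℕ
  | [] => 0
  | b :: l => 2 * val l + b.toNat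

lemma val_incL (l : List Bool) : val (incL l) = val l + 1 := by
  induction l with
  | nil => rfl
  | cons b l ih =>
    cases b
    · simp [incL, val]
    · simp [incL, val, ih]; ring

lemma val_decL (l : List Bool) (h : val l ≠ 0) : val (decL l) + 1 = val l := by
  induction l with
  | nil => exact absurd rfl h
  | cons b l ih =>
    cases b
    · have h' : val l ≠ 0 := by
        intro h0; apply h; simp [val, h0]
      have := ih h'
      simp only [decL, val, Bool.toNat_true, Bool.toNat_false]
      omega
    · simp [decL, val]

/-- `incL^[n] []` -/
def bits (n : ℕ) : List Bool := incL^[n] []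

lemma bits_succ (n : ℕ) : bits (n + 1) = incL (bits n) := Function.iterate_succ_apply' _ _ _

lemma val_bits (n : ℕ) : val (bits n) = n := by
  induction n with
  | zero => rfl
  | succ n ih => rw [bits_succ, val_incL, ih]

/-- number of `true`s -/
def tc (l : List Bool) : ℕ := l.count true

/-- number of `false`s -/
def fc (l : List Bool) : ℕ := l.count false

/-! ### one-tape programs -/

section oneTape

variable {Γ : Type} [Finite Γ]

/-- Go left until a blank is found, then one step right. -/
def rewindT : Prog (tapeDev (Option Γ)) Unit :=
  loop ((doAct (D := tapeDev (Option Γ)) (none, Dir.left)).seq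
    (lookThen (D := tapeDev (Option Γ)) (fun o => o) fun o =>
      match o with
      | none => (doAct (D := tapeDev (Option Γ)) (none, Dir.right)).seq (ret (some ()))
      | some _ => ret none))

omit [Finite Γ] in
lemma moveT_runs (d : Dir) (T : Tape (Option Γ)) :
    (doAct (D := tapeDev (Option Γ)) (none, d)).Runs T 1 () (T.move d) :=
  doAct_runs (D := tapeDev (Option Γ)) (none, d) T

lemma rewindT_runs (u : List Γ) : ∀ v : List Γ,
    (rewindT (Γ := Γ)).Runs (tp u v) (2 * u.length + 2) () (tp [] (u.reverse ++ v)) := by
  induction u with
  | nil =>
    intro v
    apply loop_exit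
    have h0 := moveT_runs Dir.left (tp [] v)
    have h1 := moveT_runs Dir.right (tpL v)
    rw [tpL_right] at h1
    refine (seq_runs (t' := 1) h0 ?_).mono (by simp)
    apply lookThen_runs
    have h : (tapeDev (Option Γ)).obs ((tp [] v).move Dir.left) = none := tpL_zero v
    rw [h]
    exact seq_runs h1 (ret_runs _ _)
  | cons x u ih =>
    intro v
    have h0 := moveT_runs Dir.left (tp (x :: u) v)
    rw [tp_left] at h0
    have h1 : (tapeDev (Option Γ)).obs (tp u (x :: v)) = some x := tp_zero u (x :: v)
    have h5 := ih (x :: v)
    have e2 : u.reverse ++ x :: v = (x :: u).reverse ++ v := by simp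
    rw [e2] at h5
    refine (loop_again (t := 1) ?_ h5).mono (by simp only [List.length_cons]; omega)
    refine seq_runs (t' := 0) h0 ?_
    apply lookThen_runs
    rw [h1]
    exact ret_runs _ _

/-- Go right until a blank is found. -/
def walkT : Prog (tapeDev (Option Γ)) Unit :=
  loop (lookThen (D := tapeDev (Option Γ)) (fun o => o) fun o =>
      match o with
      | none => ret (some ())
      | some _ => (doAct (D := tapeDev (Option Γ)) (none, Dir.right)).seq (ret none))

lemma walkT_runs (v : List Γ) : ∀ u : List Γ,
    (walkT (Γ := Γ)).Runs (tp u v) (2 * v.length) () (tp (v.reverse ++ u) []) := by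
  induction v with
  | nil =>
    intro u
    apply loop_exit
    apply lookThen_runs
    have h : (tapeDev (Option Γ)).obs (tp u []) = none := tp_zero u []
    rw [h]
    exact ret_runs _ _
  | cons x v ih =>
    intro u
    have h0 := moveT_runs Dir.right (tp u (x :: v))
    rw [tp_right] at h0
    have h1 : (tapeDev (Option Γ)).obs (tp u (x :: v)) = some x := tp_zero u (x :: v)
    have h5 := ih (x :: u)
    have e2 : v.reverse ++ x :: u = (x :: v).reverse ++ u := by simp
    rw [e2] at h5
    refine (loop_again (t := 1) ?_ h5).mono (by simp only [List.length_cons]; omega)
    apply lookThen_runs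
    rw [h1]
    exact seq_runs h0 (ret_runs _ _)

end oneTape

section counter

/-- Going right, flip the bits equal to `b` until a bit different from `b` (which is then set to
`b`, result `true`) or a blank (result `false`) is found. -/
def flipRun (b : Bool) : Prog (tapeDev (Option Bool)) Bool :=
  loop (lookThen (D := tapeDev (Option Bool)) (fun o => o) fun o =>
      match o with
      | none => ret (some false)
      | some x => if x = b then
          (doAct (D := tapeDev (Option Bool)) (some (some (!b)), Dir.right)).seq (ret none)
        else (doAct (D := tapeDev (Option Bool)) (some (some b), Dir.stay)).seq (ret (some true)))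

lemma flipRun_runs_cons (b : Bool) (k : ℕ) (rest : List Bool) : ∀ u : List Bool,
    (flipRun b).Runs (tp u (List.replicate k b ++ (!b) :: rest)) (2 * k + 1) true
      (tp (List.replicate k (!b) ++ u) (b :: rest)) := by
  induction k with
  | zero =>
    intro u
    apply loop_exit
    apply lookThen_runs
    have h : (tapeDev (Option Bool)).obs (tp u ((!b) :: rest)) = some (!b) :=
      tp_zero u ((!b) :: rest)
    have h2 := doAct_runs (D := tapeDev (Option Bool)) (some (some b), Dir.stay)
      (tp u ((!b) :: rest))
    have h3 : (tapeDev (Option Bool)).act (some (some b), Dir.stay) (tp u ((!b) :: rest)) =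
      tp u (b :: rest) := tp_write_cons u rest (!b) b
    rw [h3] at h2
    rw [List.replicate_zero, List.nil_append, List.replicate_zero, List.nil_append, h]
    have h4 : ¬ ((!b) = b) := by cases b <;> simp
    simp only [h4, if_false]
    exact (seq_runs h2 (ret_runs _ _)).mono (by omega)
  | succ k ih =>
    intro u
    have h : (tapeDev (Option Bool)).obs (tp u (b :: (List.replicate k b ++ (!b) :: rest))) =
      some b := tp_zero u (b :: (List.replicate k b ++ (!b) :: rest))
    have h2 := doAct_runs (D := tapeDev (Option Bool)) (some (some (!b)), Dir.right)
      (tp u (b :: (List.replicate k b ++ (!b) :: rest)))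
    have h3 : (tapeDev (Option Bool)).act (some (some (!b)), Dir.right)
        (tp u (b :: (List.replicate k b ++ (!b) :: rest))) =
        tp ((!b) :: u) (List.replicate k b ++ (!b) :: rest) := by
      show ((tp u (b :: (List.replicate k b ++ (!b) :: rest))).write (some (!b))).move Dir.right = _
      rw [tp_write_cons, tp_right]
    rw [h3] at h2
    have h5 := ih ((!b) :: u)
    have e : List.replicate k (!b) ++ (!b) :: u = List.replicate (k + 1) (!b) ++ u := by
      rw [List.replicate_succ', List.append_assoc]; rfl
    rw [e] at h5
    rw [List.replicate_succ, List.cons_append]
    refine (loop_again (t := 1) ?_ h5).mono (by omega)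
    apply lookThen_runs
    rw [h]
    simp only [if_true]
    exact seq_runs h2 (ret_runs _ _)

lemma flipRun_runs_nil (b : Bool) (k : ℕ) : ∀ u : List Bool,
    (flipRun b).Runs (tp u (List.replicate k b)) (2 * k) false
      (tp (List.replicate k (!b) ++ u) []) := by
  induction k with
  | zero =>
    intro u
    apply loop_exit
    apply lookThen_runs
    have h : (tapeDev (Option Bool)).obs (tp u []) = none := tp_zero u []
    rw [List.replicate_zero, List.replicate_zero, List.nil_append, h]
    exact ret_runs _ _
  | succ k ih =>
    intro u
    have h : (tapeDev (Option Bool)).obs (tp u (b :: (List.replicate k b))) =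
      some b := tp_zero u (b :: (List.replicate k b))
    have h2 := doAct_runs (D := tapeDev (Option Bool)) (some (some (!b)), Dir.right)
      (tp u (b :: (List.replicate k b)))
    have h3 : (tapeDev (Option Bool)).act (some (some (!b)), Dir.right)
        (tp u (b :: (List.replicate k b))) =
        tp ((!b) :: u) (List.replicate k b) := by
      show ((tp u (b :: (List.replicate k b))).write (some (!b))).move Dir.right = _
      rw [tp_write_cons, tp_right]
    rw [h3] at h2
    have h5 := ih ((!b) :: u)
    have e : List.replicate k (!b) ++ (!b) :: u = List.replicate (k + 1) (!b) ++ u := by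
      rw [List.replicate_succ', List.append_assoc]; rfl
    rw [e] at h5
    rw [List.replicate_succ]
    refine (loop_again (t := 1) ?_ h5).mono (by omega)
    apply lookThen_runs
    rw [h]
    simp only [if_true]
    exact seq_runs h2 (ret_runs _ _)

/-- increment the counter -/
def incP : Prog (tapeDev (Option Bool)) Unit :=
  (flipRun true).bind fun r =>
    if r then rewindT else
      (doAct (D := tapeDev (Option Bool)) (some (some true), Dir.stay)).seq rewindT

/-- decrement the counter; result `false` if it was zero -/
def decP : Prog (tapeDev (Option Bool)) Bool :=
  (flipRun false).bind fun r => rewindT.seq (ret r)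

lemma split_run (b : Bool) (l : List Bool) : ∃ k, (l = List.replicate k b) ∨
    ∃ rest, l = List.replicate k b ++ (!b) :: rest := by
  induction l with
  | nil => exact ⟨0, Or.inl rfl⟩
  | cons x l ih =>
    by_cases hx : x = b
    · obtain ⟨k, h | ⟨rest, h⟩⟩ := ih
      · exact ⟨k + 1, Or.inl (by rw [List.replicate_succ, h, hx])⟩
      · exact ⟨k + 1, Or.inr ⟨rest, by rw [List.replicate_succ, List.cons_append, ← h, hx]⟩⟩
    · have : x = !b := by cases x <;> cases b <;> simp_all
      exact ⟨0, Or.inr ⟨l, by rw [this]; rfl⟩⟩

lemma incL_replicate (k : ℕ) (rest : List Bool) :
    incL (List.replicate k true ++ false :: rest) = List.replicate k false ++ true :: rest := by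
  induction k with
  | zero => rfl
  | succ k ih =>
    rw [List.replicate_succ, List.cons_append, incL, ih, List.replicate_succ, List.cons_append]

lemma incL_replicate' (k : ℕ) :
    incL (List.replicate k true) = List.replicate k false ++ [true] := by
  induction k with
  | zero => rfl
  | succ k ih =>
    rw [List.replicate_succ, incL, ih, List.replicate_succ, List.cons_append]

lemma decL_replicate (k : ℕ) (rest : List Bool) :
    decL (List.replicate k false ++ true :: rest) = List.replicate k true ++ false :: rest := by
  induction k with
  | zero => rfl
  | succ k ih =>
    rw [List.replicate_succ, List.cons_append, decL, ih, List.replicate_succ, List.cons_append]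

lemma incP_runs (l : List Bool) :
    ∃ t, t + 4 * tc (incL l) ≤ 4 * tc l + 10 ∧ incP.Runs (tp [] l) t () (tp [] (incL l)) := by
  obtain ⟨k, h | ⟨rest, h⟩⟩ := split_run true l
  · subst h
    refine ⟨4 * k + 5, ?_, ?_⟩
    · rw [incL_replicate']
      have e1 : tc (List.replicate k false ++ [true]) = 1 := by
        simp [tc, List.count_replicate]
      have e2 : tc (List.replicate k true) = k := by
        simp [tc]
      rw [e1, e2]
      omega
    · have h1 := flipRun_runs_nil true k []
      have h2 := doAct_runs (D := tapeDev (Option Bool)) (some (some true), Dir.stay)
        (tp (List.replicate k (!true) ++ []) [])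
      have h3 : (tapeDev (Option Bool)).act (some (some true), Dir.stay)
          (tp (List.replicate k (!true) ++ []) []) = tp (List.replicate k (!true) ++ []) [true] :=
        tp_write_nil _ _
      rw [h3] at h2
      have h4 := rewindT_runs (List.replicate k (!true) ++ []) [true]
      have e : (List.replicate k (!true) ++ []).reverse ++ [true] =
          incL (List.replicate k true) := by
        rw [incL_replicate']; simp
      rw [e] at h4
      have h5 := bind_runs (K := fun r => if r then rewindT else
        (doAct (D := tapeDev (Option Bool)) (some (some true), Dir.stay)).seq rewindT) h1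
        (seq_runs h2 h4)
      refine h5.mono ?_
      simp only [List.append_nil, List.length_replicate]
      omega
  · subst h
    refine ⟨4 * k + 5, ?_, ?_⟩
    · show _ + 4 * tc (incL (List.replicate k true ++ false :: rest)) ≤
        4 * tc (List.replicate k true ++ false :: rest) + 10
      rw [incL_replicate]
      have e1 : tc (List.replicate k false ++ true :: rest) = tc rest + 1 := by
        simp [tc, List.count_replicate]
      have e2 : tc (List.replicate k true ++ false :: rest) = k + tc rest := by
        simp [tc]
      rw [e1, e2]
      omega
    · have h1 := flipRun_runs_cons true k rest []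
      have h4 := rewindT_runs (List.replicate k (!true) ++ []) (true :: rest)
      have e : (List.replicate k (!true) ++ []).reverse ++ true :: rest =
          incL (List.replicate k true ++ (!true) :: rest) := by
        show _ = incL (List.replicate k true ++ false :: rest)
        rw [incL_replicate]; simp
      rw [e] at h4
      have h5 := bind_runs (K := fun r => if r then rewindT else
        (doAct (D := tapeDev (Option Bool)) (some (some true), Dir.stay)).seq rewindT) h1 h4
      refine h5.mono ?_
      simp only [List.append_nil, List.length_replicate]
      omega

lemma val_replicate_false (k : ℕ) : val (List.replicate k false) = 0 := by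
  induction k with
  | zero => rfl
  | succ k ih => rw [List.replicate_succ]; simp [val, ih]

lemma val_run_pos (k : ℕ) (rest : List Bool) :
    val (List.replicate k false ++ true :: rest) ≠ 0 := by
  induction k with
  | zero => simp [val]
  | succ k ih => rw [List.replicate_succ, List.cons_append]; simpa [val] using ih

/-- decrement of a nonzero counter -/
lemma decP_runs (l : List Bool) (h : val l ≠ 0) :
    (decL l).length = l.length ∧
    ∃ t, t + 4 * fc (decL l) ≤ 4 * fc l + 10 ∧ decP.Runs (tp [] l) t true (tp [] (decL l)) := by
  obtain ⟨k, h' | ⟨rest, h'⟩⟩ := split_run false l
  · subst h'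
    exact absurd (val_replicate_false k) h
  · subst h'
    have e0 : decL (List.replicate k false ++ (!false) :: rest) =
        List.replicate k true ++ false :: rest := decL_replicate k rest
    refine ⟨?_, 4 * k + 5, ?_, ?_⟩
    · rw [e0]; simp
    · rw [e0]
      have e1 : fc (List.replicate k true ++ false :: rest) = fc rest + 1 := by
        simp [fc, List.count_replicate]
      have e2 : fc (List.replicate k false ++ (!false) :: rest) = k + fc rest := by
        simp [fc]
      rw [e1, e2]
      omega
    · have h1 := flipRun_runs_cons false k rest []
      have h4 := rewindT_runs (List.replicate k (!false) ++ []) (false :: rest)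
      have e : (List.replicate k (!false) ++ []).reverse ++ false :: rest =
          decL (List.replicate k false ++ (!false) :: rest) := by
        rw [e0]; simp
      rw [e] at h4
      have h5 := bind_runs (K := fun r => rewindT.seq (ret r)) h1
        (seq_runs h4 (ret_runs true _))
      refine h5.mono ?_
      simp only [List.append_nil, List.length_replicate]
      omega

/-- decrement of a zero counter -/
lemma decP_runs_zero (l : List Bool) (h : val l = 0) :
    ∃ T, decP.Runs (tp [] l) (4 * l.length + 5) false T := by
  obtain ⟨k, h' | ⟨rest, h'⟩⟩ := split_run false l
  · subst h'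
    have h1 := flipRun_runs_nil false k []
    have h4 := rewindT_runs (List.replicate k (!false) ++ []) []
    have h5 := bind_runs (K := fun r => rewindT.seq (ret r)) h1
      (seq_runs h4 (ret_runs false _))
    refine ⟨_, h5.mono ?_⟩
    simp only [List.append_nil, List.length_replicate]
    omega
  · subst h'
    exact absurd h (val_run_pos k rest)

end counter

end Pool.Agent.Helper86
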