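import Pool.Agent.Helper86.TMBase

/-!
# Linear time with `O(log n)` guessed bits: the definition
-/

namespace Pool.Agent.Helper86

/-- `LINTIME` with `O(log n)` guessed bits, the guess-and-check class `GC(O(log n), LINTIME)`:
`L` is in this class if there are a constant `c` and a language `P` in `LINTIME` such that a word
`w` is in `L` if and only if there is a word `y` of at most `c * ⌊log₂ (|w| + 2)⌋` bits with
`y w ∈ P` (the alphabet of `P` is the disjoint union of `{0,1}` and the alphabet of `L`). -/
def GCLOG {α : Type} (L : Language α) : Prop :=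
  ∃ (c : ℕ) (P : Language (Bool ⊕ α)), LINTIME P ∧ ∀ w : List α,
    w ∈ L ↔ ∃ y : List Bool, y.length ≤ c * Nat.log 2 (w.length + 2) ∧
      y.map Sum.inl ++ w.map Sum.inr ∈ P

end Pool.Agent.Helper86
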