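import Pool.Agent.Helper86.TMBinary
import Pool.Agent.Helper86.TMGuessDef

/-!
# Linear time with `O(log n)` guessed bits
-/

namespace Pool.Agent.Helper86

open Prog
open scoped Computability

/-! ### binary notation -/

/-- canonical lists of bits: no leading zero -/
def Canon : List Bool → Prop
  | [] => True
  | b :: l => Canon l ∧ (l = [] → b = true)

lemma canon_incL (l : List Bool) (h : Canon l) : Canon (incL l) := by
  induction l with
  | nil => exact ⟨trivial, fun _ => rfl⟩
  | cons b l ih =>
    cases b
    · exact ⟨h.1, fun hl => rfl⟩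
    · refine ⟨ih h.1, fun hl => ?_⟩
      exfalso
      cases l with
      | nil => simp [incL] at hl
      | cons b l => cases b <;> simp [incL] at hl

lemma canon_bits (n : ℕ) : Canon (bits n) := by
  induction n with
  | zero => trivial
  | succ n ih => rw [bits_succ]; exact canon_incL _ ih

lemma val_eq_zero {l : List Bool} (h : Canon l) (h0 : val l = 0) : l = [] := by
  induction l with
  | nil => rfl
  | cons b l ih =>
    exfalso
    have h1 : val l = 0 := by simp only [val] at h0; omega
    have h2 := ih h.1 h1
    have h3 := h.2 h2
    subst h2 h3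
    simp [val] at h0

lemma val_inj {l l' : List Bool} (h : Canon l) (h' : Canon l') (e : val l = val l') : l = l' := by
  induction l generalizing l' with
  | nil =>
    exact (val_eq_zero h' (by rw [← e]; rfl)).symm
  | cons b l ih =>
    cases l' with
    | nil => exact val_eq_zero h (by rw [e]; rfl)
    | cons b' l' =>
      simp only [val] at e
      have hb : b = b' := by
        cases b <;> cases b' <;> simp at e ⊢ <;> omega
      subst hb
      rw [ih h.1 h'.1 (by omega)]

lemma canon_append_true (z : List Bool) : Canon (z ++ [true]) := by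
  induction z with
  | nil => exact ⟨trivial, fun _ => rfl⟩
  | cons b z ih => exact ⟨ih, fun h => by simp at h⟩

lemma canon_cases {l : List Bool} (h : Canon l) : l = [] ∨ ∃ z, l = z ++ [true] := by
  induction l with
  | nil => exact Or.inl rfl
  | cons b l ih =>
    right
    rcases ih h.1 with h1 | ⟨z, h1⟩
    · exact ⟨[], by rw [h1, h.2 h1]; rfl⟩
    · exact ⟨b :: z, by rw [h1]; rfl⟩

lemma bits_val (z : List Bool) : bits (val (z ++ [true])) = z ++ [true] :=
  val_inj (canon_bits _) (canon_append_true z) (val_bits _)

lemma val_append_true (z : List Bool) : val (z ++ [true]) = val z + 2 ^ z.length := by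
  induction z with
  | nil => rfl
  | cons b z ih =>
    simp only [List.cons_append, val, ih, List.length_cons, pow_succ]
    ring

lemma val_lt (z : List Bool) : val z < 2 ^ z.length := by
  induction z with
  | nil => simp [val]
  | cons b z ih =>
    simp only [val, List.length_cons, pow_succ]
    have : b.toNat ≤ 1 := Bool.toNat_le b
    omega

lemma length_dropLast_bits (m : ℕ) : (bits m).dropLast.length = Nat.log 2 m := by
  rcases canon_cases (canon_bits m) with h | ⟨z, h⟩
  · have h1 := val_bits m
    rw [h] at h1
    have : m = 0 := h1.symm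
    subst this
    rw [h]; simp
  · have h1 := val_bits m
    rw [h, val_append_true] at h1
    have h2 := val_lt z
    rw [h, List.dropLast_concat]
    symm
    apply Nat.log_eq_of_pow_le_of_lt_pow
    · omega
    · rw [pow_succ]; omega

lemma length_bits_le (j n : ℕ) (h : j ≤ n) : (bits j).length ≤ 2 * Nat.log 2 (n + 2) := by
  have h1 := length_dropLast_bits j
  rw [List.length_dropLast] at h1
  have h2 : Nat.log 2 j ≤ Nat.log 2 (n + 2) := Nat.log_mono_right (by omega)
  have h3 : 1 ≤ Nat.log 2 (n + 2) := Nat.log_pos (by norm_num) (by omega)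
  omega

lemma flatMap_single {γ δ : Type} (f : γ → δ) (w : List γ) :
    (w.flatMap fun x => [f x]) = w.map f := by
  induction w with
  | nil => rfl
  | cons a w ih => rw [List.flatMap_cons, ih]; rfl

/-! ### from concatenations to guessing -/

section easy

variable {α : Type}

lemma markBin_eq (y : List Bool) (w : List α) : ∀ C : List Bool,
    markBin C (y.map Sum.inl ++ w.map Sum.inr) = markR (val (y.reverse ++ C)) (lett w) := by
  induction y with
  | nil =>
    intro C
    cases w with
    | nil => rfl
    | cons x w =>
      show markR (val C) (some (some x) :: (w.map Sum.inr).map toSym) = _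
      rw [List.map_map]
      rfl
  | cons b y ih =>
    intro C
    rw [List.map_cons, List.cons_append, markBin, ih (b :: C)]
    simp

lemma lett_inj {w w' : List α} (h : lett w = lett w') : w = w' := by
  have hinj : Function.Injective (fun x : α => some (some x)) := by
    intro a b hab
    simpa using hab
  exact List.map_injective_iff.mpr hinj h

/-- `L₁ L₂` is obtained by guessing the position of the cut. -/
theorem GCLOG.concat [Finite α] {L₁ L₂ : Language α} (h₁ : LINTIME L₁) (h₂ : LINTIME L₂) :
    GCLOG (L₁ * L₂) := by
  have a1 : LINTIME {m : List (Option (α × Bool)) | ∀ y ∈ m, y ≠ none} :=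
    (REALTIME_forall (fun y => y ≠ none)).lintime
  have a2 : LINTIME {m : List (Option (α × Bool)) | m.flatMap keepT ∈ L₁} :=
    LINTIME.preimage (LinFun.flatMap keepT) h₁
  have a3 : LINTIME {m : List (Option (α × Bool)) | m.flatMap keepF ∈ L₂} :=
    LINTIME.preimage (LinFun.flatMap keepF) h₂
  have a4 := LINTIME.preimage LinFun.markBin ((a1.inter a2).inter a3)
  refine ⟨2, _, a4, fun w => ?_⟩
  have key : ∀ y : List Bool, (((∀ s ∈ markBin [] (y.map Sum.inl ++ w.map Sum.inr), s ≠ none) ∧
      (markBin [] (y.map Sum.inl ++ w.map Sum.inr)).flatMap keepT ∈ L₁) ∧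
      (markBin [] (y.map Sum.inl ++ w.map Sum.inr)).flatMap keepF ∈ L₂) ↔
      (val y.reverse ≤ w.length ∧ w.take (val y.reverse) ∈ L₁ ∧ w.drop (val y.reverse) ∈ L₂) := by
    intro y
    rw [markBin_eq, List.append_nil]
    constructor
    · rintro ⟨⟨h0, h1⟩, h2⟩
      obtain ⟨w', hw', hj⟩ := markR_clean (lett w) _ (fun h => h0 none h rfl)
      rw [← lett_inj hw'] at hj
      rw [markR_lett w _ hj, marked_keepT] at h1
      rw [markR_lett w _ hj, marked_keepF] at h2
      exact ⟨hj, h1, h2⟩
    · rintro ⟨hj, h1, h2⟩
      rw [markR_lett w _ hj, marked_keepT, marked_keepF]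
      refine ⟨⟨?_, h1⟩, h2⟩
      intro s hs hn
      subst hn
      exact none_notMem_marked _ w hs
  constructor
  · intro hw
    rw [Language.mem_mul] at hw
    obtain ⟨u, hu, v, hv, rfl⟩ := hw
    refine ⟨(bits u.length).reverse, ?_, (key _).2 ?_⟩
    · rw [List.length_reverse]
      exact length_bits_le _ _ (by simp)
    · rw [List.reverse_reverse, val_bits]
      refine ⟨by simp, ?_, ?_⟩
      · rw [List.take_left']; exact hu; rfl
      · rw [List.drop_left']; exact hv; rfl
  · rintro ⟨y, _, hy⟩
    obtain ⟨_, h1, h2⟩ := (key y).1 hy
    rw [Language.mem_mul]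
    exact ⟨_, h1, _, h2, List.take_append_drop _ w⟩

end easy

/-! ### from guessing to concatenations -/

lemma mem_star_mul {β : Type} (a b : β) (hab : b ≠ a) (n : ℕ) (rest : List β) (Q : Language β) :
    List.replicate n a ++ b :: rest ∈ (({[a]} : Language β)∗ * Q) ↔
      ∃ k ≤ n, List.replicate k a ++ b :: rest ∈ Q := by
  rw [Language.mem_mul]
  constructor
  · rintro ⟨s, hs, t, ht, hst⟩
    rw [mem_kstar_singleton] at hs
    obtain ⟨k₀, rfl⟩ : ∃ k₀, s = List.replicate k₀ a :=
      ⟨s.length, List.eq_replicate_iff.mpr ⟨rfl, hs⟩⟩
    have hlen : k₀ ≤ n := by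
      by_contra hlt
      push Not at hlt
      have h5 : (List.replicate k₀ a ++ t)[n]? = some a := by
        rw [List.getElem?_append_left (by simpa using hlt), List.getElem?_replicate,
          if_pos hlt]
      rw [hst, List.getElem?_append_right (by simp)] at h5
      simp at h5
      exact hab h5
    refine ⟨n - k₀, by omega, ?_⟩
    have h6 : List.replicate k₀ a ++ t = List.replicate k₀ a ++
        (List.replicate (n - k₀) a ++ b :: rest) := by
      rw [hst, ← List.append_assoc (List.replicate k₀ _), List.replicate_append_replicate]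
      congr 2
      omega
    rw [← List.append_cancel_left h6]
    exact ht
  · rintro ⟨k, hk, hQ⟩
    refine ⟨List.replicate (n - k) a, ?_, _, hQ, ?_⟩
    · rw [mem_kstar_singleton]
      intro x hx
      exact List.eq_of_mem_replicate hx
    · rw [← List.append_assoc, List.replicate_append_replicate]
      congr 2
      omega

section hard

variable {α : Type}

/-- is a tick -/
def isTick : Option (Option (Bool ⊕ α)) → Bool
  | none => true
  | _ => false

/-- is an extra symbol or a letter of `α` -/
def isR : Option (Option (Option (Bool ⊕ α))) → Bool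
  | none => true
  | some (some (some (Sum.inr _))) => true
  | _ => false

/-- the letters -/
def getL : Option (Option (Bool ⊕ α)) → List (Bool ⊕ α)
  | some (some s) => [s]
  | _ => []

/-- the guessed bits -/
def zf (x : List (Option (Option (Bool ⊕ α)))) : List Bool :=
  (bits (x.countP isTick)).dropLast

/-- add two extra symbols -/
def ext (x : List (Option (Option (Bool ⊕ α)))) : List (Option (Option (Option (Bool ⊕ α)))) :=
  [none, none] ++ x.flatMap fun s => [some s]

/-- a word of length `⌊log₂ (r + 2)⌋` with `r` the number of letters of `α` -/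
def bf (x : List (Option (Option (Bool ⊕ α)))) : List Bool :=
  (bits ((ext x).countP isR)).dropLast

variable [Finite α]

lemma LinFun.zf : LinFun (zf : List (Option (Option (Bool ⊕ α))) → List Bool) :=
  LinFun.count isTick

lemma LinFun.bf : LinFun (bf : List (Option (Option (Bool ⊕ α))) → List Bool) :=
  (LinFun.count (isR (α := α))).comp ((LinFun.const [none, none]).append (LinFun.flatMap _))

/-- comparison of the two lengths, as a word for `mark` -/
def cmpW (x : List (Option (Option (Bool ⊕ α)))) : List (Option (Option Unit)) :=
  ((zf x).flatMap fun _ => [none]) ++ ([some none] ++ ((bf x).flatMap fun _ => [some (some ())]))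

lemma LinFun.cmpW :
    LinFun (cmpW : List (Option (Option (Bool ⊕ α))) → List (Option (Option Unit))) :=
  ((LinFun.flatMap _).comp LinFun.zf).append ((LinFun.const _).append
    ((LinFun.flatMap _).comp LinFun.bf))

omit [Finite α] in
lemma clean_cmpW (x : List (Option (Option (Bool ⊕ α)))) :
    (∀ y ∈ mark (cmpW x), y ≠ none) ↔ (zf x).length ≤ (bf x).length := by
  have h1 : ((zf x).flatMap fun _ => [(none : Option (Option Unit))]) =
      List.replicate (zf x).length none := by
    have := flatMap_const (zf x) (none : Option (Option Unit)) 1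
    rwa [List.replicate_one, one_mul] at this
  have h2 : ((bf x).flatMap fun _ => [(some (some ()) : Option (Option Unit))]) =
      lett (List.replicate (bf x).length ()) := by
    have := flatMap_const (bf x) (some (some ()) : Option (Option Unit)) 1
    rw [List.replicate_one, one_mul] at this
    rw [this, lett, List.map_replicate]
  have h3 : mark (cmpW x) = markR (zf x).length (lett (List.replicate (bf x).length ())) := by
    unfold cmpW mark
    rw [h1, h2]
    show markTop 0 (List.replicate (zf x).length none ++ some none ::
      lett (List.replicate (bf x).length ())) = _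
    rw [markTop_ticks, Nat.zero_add]
  rw [h3]
  constructor
  · intro h
    obtain ⟨w, hw, hj⟩ := markR_clean _ _ (fun hn => h none hn rfl)
    rw [← lett_inj hw] at hj
    simpa using hj
  · intro h y hy hn
    subst hn
    rw [markR_lett _ _ (by simpa using h)] at hy
    exact none_notMem_marked _ _ hy

/-- the language used for one block of guessed bits -/
def guessLang (P : Language (Bool ⊕ α)) : Language (Option (Option (Bool ⊕ α))) :=
  {x | (∀ y ∈ mark (cmpW x), y ≠ none) ∧
    ((zf x).flatMap fun b => [Sum.inl b]) ++ x.flatMap getL ∈ P}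

lemma guessLang_LINTIME {P : Language (Bool ⊕ α)} (hP : LINTIME P) : LINTIME (guessLang P) := by
  have a1 : LINTIME {m : List (Option (Unit × Bool)) | ∀ y ∈ m, y ≠ none} :=
    (REALTIME_forall (fun y => y ≠ none)).lintime
  have a2 := LINTIME.preimage (LinFun.mark.comp (LinFun.cmpW (α := α))) a1
  have a3 := LINTIME.preimage
    (((LinFun.flatMap (fun b : Bool => [(Sum.inl b : Bool ⊕ α)])).comp LinFun.zf).append
      (LinFun.flatMap getL)) hP
  exact a2.inter a3

/-- the word `(tick)^(2|u|+4) separator u` -/
def spread (u : List (Bool ⊕ α)) : List (Option (Option (Bool ⊕ α))) :=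
  (u.flatMap fun _ => [none, none]) ++ ([none, none, none, none, some none] ++
    (u.flatMap fun s => [some (some s)]))

lemma LinFun.spread : LinFun (spread (α := α)) :=
  (LinFun.flatMap _).append ((LinFun.const _).append (LinFun.flatMap _))

omit [Finite α] in
lemma spread_eq (u : List (Bool ⊕ α)) :
    spread u = List.replicate (2 * u.length + 4) none ++ some none :: lett u := by
  have h1 : (u.flatMap fun _ => [(none : Option (Option (Bool ⊕ α))), none]) =
      List.replicate (2 * u.length) none := flatMap_const u _ 2
  have h2 : (u.flatMap fun s => [(some (some s) : Option (Option (Bool ⊕ α)))]) = lett u := by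
    unfold lett
    rw [flatMap_single]
  unfold spread
  rw [h1, h2, List.replicate_add]
  simp [List.replicate]

/-- number of letters of `α` -/
def rc (u : List (Bool ⊕ α)) : ℕ := u.countP Sum.isRight

/-- guess one block of at most `⌊log₂ (r + 2)⌋` bits, `r` the number of letters of `α` -/
def nextLang (P : Language (Bool ⊕ α)) : Language (Bool ⊕ α) :=
  {u | ∃ z : List Bool, z.length ≤ Nat.log 2 (rc u + 2) ∧ z.map Sum.inl ++ u ∈ P}

omit [Finite α] in
lemma zf_word (k : ℕ) (u : List (Bool ⊕ α)) :
    zf (List.replicate k none ++ some none :: lett u) = (bits k).dropLast := by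
  unfold zf
  congr 2
  have h1 : ∀ u : List (Bool ⊕ α), (lett u).countP isTick = 0 := by
    intro u
    induction u with
    | nil => rfl
    | cons s u ih =>
      rw [show lett (s :: u) = some (some s) :: lett u from rfl, List.countP_cons, ih]
      rfl
  rw [List.countP_append, List.countP_cons, h1, List.countP_replicate]
  simp [isTick]

omit [Finite α] in
lemma bf_word (k : ℕ) (u : List (Bool ⊕ α)) :
    bf (List.replicate k none ++ some none :: lett u) = (bits (rc u + 2)).dropLast := by
  unfold bf ext
  congr 2
  have h1 : ∀ u : List (Bool ⊕ α),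
      ((lett u).flatMap fun s => [some s]).countP isR = rc u := by
    intro u
    induction u with
    | nil => rfl
    | cons s u ih =>
      rw [show lett (s :: u) = some (some s) :: lett u from rfl, List.flatMap_cons,
        List.countP_append, ih]
      unfold rc
      rcases s with b | x
      · rw [List.countP_cons]
        simp [isR]
      · rw [List.countP_cons_of_pos (a := (Sum.inr x : Bool ⊕ α)) (p := Sum.isRight) rfl,
          Nat.add_comm]
        rfl
  have h2 : ((List.replicate k (none : Option (Option (Bool ⊕ α)))).flatMap
      fun s => [some s]).countP isR = 0 := by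
    induction k with
    | zero => rfl
    | succ k ih =>
      rw [List.replicate_succ, List.flatMap_cons, List.countP_append, ih]
      rfl
  rw [List.countP_append, List.flatMap_append, List.countP_append, h2, List.flatMap_cons,
    List.countP_append, h1]
  have h3 : List.countP (isR (α := α)) [none, none] = 2 := rfl
  have h4 : List.countP (isR (α := α)) [some (some none)] = 0 := rfl
  rw [h3, h4]
  omega

omit [Finite α] in
lemma getL_word (k : ℕ) (u : List (Bool ⊕ α)) :
    (List.replicate k none ++ some none :: lett u).flatMap getL = u := by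
  have h1 : ∀ u : List (Bool ⊕ α), (lett u).flatMap getL = u := by
    intro u
    induction u with
    | nil => rfl
    | cons s u ih =>
      rw [show lett (s :: u) = some (some s) :: lett u from rfl, List.flatMap_cons, ih]
      rfl
  have h2 : (List.replicate k (none : Option (Option (Bool ⊕ α)))).flatMap getL = [] := by
    induction k with
    | zero => rfl
    | succ k ih => rw [List.replicate_succ, List.flatMap_cons, ih]; rfl
  rw [List.flatMap_append, h2, List.flatMap_cons, h1]
  rfl

omit [Finite α] in
lemma mem_guessLang (P : Language (Bool ⊕ α)) (k : ℕ) (u : List (Bool ⊕ α)) :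
    List.replicate k none ++ some none :: lett u ∈ guessLang P ↔
      ((bits k).dropLast.length ≤ Nat.log 2 (rc u + 2) ∧
        (bits k).dropLast.map Sum.inl ++ u ∈ P) := by
  show ((∀ y ∈ mark (cmpW _), y ≠ none) ∧ _ ∈ P) ↔ _
  rw [clean_cmpW, zf_word, bf_word, getL_word, length_dropLast_bits (rc u + 2),
    flatMap_single]

omit [Finite α] in
lemma rc_le (u : List (Bool ⊕ α)) : rc u ≤ u.length := List.countP_le_length

lemma nextLang_LINTIME
    (h : ∀ (β : Type) [Finite β] (L₁ L₂ : Language β),
      LINTIME L₁ → LINTIME L₂ → LINTIME (L₁ * L₂))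
    {P : Language (Bool ⊕ α)} (hP : LINTIME P) : LINTIME (nextLang P) := by
  have h1 := h _ _ _ (REALTIME_kstar_singleton
    (none : Option (Option (Bool ⊕ α)))).lintime (guessLang_LINTIME hP)
  have h2 := LINTIME.preimage LinFun.spread h1
  refine LINTIME.congr (fun u => ?_) h2
  show spread u ∈ (({[none]} : Language (Option (Option (Bool ⊕ α))))∗ * guessLang P) ↔
    ∃ z : List Bool, z.length ≤ Nat.log 2 (rc u + 2) ∧ z.map Sum.inl ++ u ∈ P
  rw [spread_eq, mem_star_mul none (some none) (by simp)]
  constructor
  · rintro ⟨k, _, hk⟩
    rw [mem_guessLang] at hk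
    exact ⟨_, hk⟩
  · rintro ⟨z, hz, hzP⟩
    have hb := bits_val z
    refine ⟨val (z ++ [true]), ?_, ?_⟩
    · rw [val_append_true]
      have h3 := val_lt z
      have h4 : 2 ^ z.length ≤ 2 ^ Nat.log 2 (rc u + 2) := Nat.pow_le_pow_right (by norm_num) hz
      have h5 : 2 ^ Nat.log 2 (rc u + 2) ≤ rc u + 2 := Nat.pow_log_le_self 2 (by omega)
      have h6 := rc_le u
      omega
    · rw [mem_guessLang, hb, List.dropLast_concat]
      exact ⟨hz, hzP⟩

omit [Finite α] in
lemma rc_word (y : List Bool) (w : List α) :
    rc (y.map Sum.inl ++ w.map Sum.inr : List (Bool ⊕ α)) = w.length := by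
  unfold rc
  rw [List.countP_append, List.countP_map, List.countP_map]
  have h3 : List.countP (Sum.isRight ∘ (Sum.inl : Bool → Bool ⊕ α)) y = 0 := by
    rw [List.countP_eq_zero]
    intro b _
    simp
  have h4 : List.countP (Sum.isRight ∘ (Sum.inr : α → Bool ⊕ α)) w = w.length := by
    rw [List.countP_eq_length]
    intro b _
    simp
  rw [h3, h4, Nat.zero_add]

/-- If `LINTIME` is closed under concatenation then `O(log n)` guessed bits do not help. -/
theorem GCLOG.lintime
    (h : ∀ (β : Type) [Finite β] (L₁ L₂ : Language β),
      LINTIME L₁ → LINTIME L₂ → LINTIME (L₁ * L₂))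
    {L : Language α} (hL : GCLOG L) : LINTIME L := by
  obtain ⟨c, P, hP, hL⟩ := hL
  have key : ∀ (c : ℕ) (P : Language (Bool ⊕ α)), LINTIME P →
      LINTIME {w : List α | ∃ y : List Bool, y.length ≤ c * Nat.log 2 (w.length + 2) ∧
        y.map Sum.inl ++ w.map Sum.inr ∈ P} := by
    intro c
    induction c with
    | zero =>
      intro P hP
      have h1 := LINTIME.preimage (LinFun.flatMap (fun x : α => [(Sum.inr x : Bool ⊕ α)])) hP
      refine LINTIME.congr (fun w => ?_) h1
      show (w.flatMap fun x => [(Sum.inr x : Bool ⊕ α)]) ∈ P ↔
        ∃ y : List Bool, y.length ≤ 0 * Nat.log 2 (w.length + 2) ∧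
          y.map Sum.inl ++ w.map Sum.inr ∈ P
      rw [flatMap_single, Nat.zero_mul]
      constructor
      · intro hw
        exact ⟨[], le_rfl, hw⟩
      · rintro ⟨y, hy, hyP⟩
        have : y = [] := by simpa using hy
        subst this
        exact hyP
    | succ c ih =>
      intro P hP
      have h1 := ih (nextLang P) (nextLang_LINTIME h hP)
      refine LINTIME.congr (fun w => ?_) h1
      show (∃ y : List Bool, y.length ≤ c * Nat.log 2 (w.length + 2) ∧
        ∃ z : List Bool, z.length ≤ Nat.log 2 (rc (y.map Sum.inl ++ w.map Sum.inr) + 2) ∧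
          z.map Sum.inl ++ (y.map Sum.inl ++ w.map Sum.inr) ∈ P) ↔
        ∃ y : List Bool, y.length ≤ (c + 1) * Nat.log 2 (w.length + 2) ∧
          y.map Sum.inl ++ w.map Sum.inr ∈ P
      constructor
      · rintro ⟨y, hy, z, hz, hzP⟩
        rw [rc_word] at hz
        refine ⟨z ++ y, ?_, ?_⟩
        · rw [List.length_append, add_mul, one_mul]
          omega
        · rw [List.map_append, List.append_assoc]
          exact hzP
      · rintro ⟨y, hy, hyP⟩
        set ℓ := Nat.log 2 (w.length + 2) with hℓ
        refine ⟨y.drop ℓ, ?_, y.take ℓ, ?_, ?_⟩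
        · rw [List.length_drop]
          rw [add_mul, one_mul] at hy
          omega
        · rw [rc_word, List.length_take]
          exact min_le_left _ _
        · rw [← List.append_assoc, ← List.map_append, List.take_append_drop]
          exact hyP
  exact LINTIME.congr (fun w => (hL w).symm) (key c P hP)

end hard

end Pool.Agent.Helper86
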