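import Pool.Agent.Helper86.TMRealtime

/-!
# A linear-time marking function

Words over `Option (Option α)`: `none` is a tick, `some none` a separator, `some (some x)` a
letter.  On the word (tick)^j separator w the function `mark` marks the first `j` letters of `w`.
-/

namespace Pool.Agent.Helper86

open Prog
open scoped Computability

section mark

variable {α : Type}

/-- Mark the first `j` letters. -/
def markR : ℕ → List (Option (Option α)) → List (Option (α × Bool))
  | 0, [] => []
  | _ + 1, [] => [none]
  | j, some (some x) :: w => some (x, decide (0 < j)) :: markR (j - 1) w
  | _, _ :: _ => [none]

/-- Count ticks, then mark. -/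
def markTop : ℕ → List (Option (Option α)) → List (Option (α × Bool))
  | j, none :: w => markTop (j + 1) w
  | j, some none :: w => markR j w
  | _, _ => [none]

/-- The marking function. -/
def mark (x : List (Option (Option α))) : List (Option (α × Bool)) := markTop 0 x

lemma markR_length (w : List (Option (Option α))) : ∀ j, (markR j w).length ≤ w.length + 1 := by
  induction w with
  | nil => intro j; cases j <;> simp [markR]
  | cons x w ih =>
    intro j
    rcases x with _ | _ | x
    · simp [markR]
    · simp [markR]
    · rw [markR]
      simp only [List.length_cons]
      have := ih (j - 1)
      omega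

lemma markTop_length (w : List (Option (Option α))) :
    ∀ j, (markTop j w).length ≤ w.length + 1 := by
  induction w with
  | nil => intro j; simp [markTop]
  | cons x w ih =>
    intro j
    rcases x with _ | _ | x
    · rw [markTop]
      have := ih (j + 1)
      simp only [List.length_cons]
      omega
    · rw [markTop]
      have := markR_length w j
      simp only [List.length_cons]
      omega
    · simp [markTop]

variable [Finite α]

/-- the device of the marking program -/
abbrev markDev (α : Type) : Device :=
  ioDev (Option (Option α)) (Option (α × Bool)) (tapeDev (Option Unit))

/-- access to the counter -/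
def liftC {R : Type} (P : Prog (tapeDev (Option Unit)) R) : Prog (markDev α) R :=
  lift (eD (Option (Option α)) (Option (α × Bool)) (tapeDev (Option Unit))) P

/-- move the input head to the right -/
def mR : Prog (markDev α) Unit :=
  lift (eI (Option (Option α)) (Option (α × Bool)) (tapeDev (Option Unit))) (inR _)

/-- push on the output -/
def mP (y : Option (α × Bool)) : Prog (markDev α) Unit :=
  lift (eT (Option (Option α)) (Option (α × Bool)) (tapeDev (Option Unit))) (push y)

/-- first phase: count the ticks -/
def phase1 : Prog (markDev α) Bool :=
  loop (lookThen (D := markDev α) (fun o => o.1) fun o =>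
    match o with
    | some none => (liftC (push ())).seq (mR.seq (ret none))
    | some (some none) => mR.seq (ret (some true))
    | _ => ret (some false))

lemma phase1_runs (v : List (Option (Option α))) (l : List (Option (α × Bool))) :
    ∀ (u : List (Option (Option α))) (j : ℕ), ∃ (b : Bool) (u' v' : List (Option (Option α)))
      (j' : ℕ), u'.reverse ++ v' = u.reverse ++ v ∧
      (b = true → markTop j v = markR j' v') ∧ (b = false → markTop j v = [none]) ∧
      (phase1 (α := α)).Runs (tp u v, tp [] l, tp [] (List.replicate j ()))
        (4 * v.length + 1) b (tp u' v', tp [] l, tp [] (List.replicate j' ())) := by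
  induction v with
  | nil =>
    intro u j
    refine ⟨false, u, [], j, rfl, by simp, by simp [markTop], ?_⟩
    apply loop_exit
    apply lookThen_runs
    have h : ((markDev α).obs (tp u [], tp [] l, tp [] (List.replicate j ()))).1 = none :=
      tp_zero u []
    rw [h]
    exact (ret_runs _ _).mono (by simp)
  | cons x v ih =>
    intro u j
    have h : ((markDev α).obs (tp u (x :: v), tp [] l, tp [] (List.replicate j ()))).1 =
      some x := tp_zero u (x :: v)
    rcases x with _ | _ | x
    · obtain ⟨b, u', v', j', h1, h2, h3, h4⟩ := ih (none :: u) (j + 1)
      refine ⟨b, u', v', j', by simpa using h1, by simpa [markTop] using h2,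
        by simpa [markTop] using h3, ?_⟩
      have h5 := liftD_runs (α := Option (Option α)) (β := Option (α × Bool))
        (push_runs () (List.replicate j ())) (tp u (none :: v)) (tp [] l)
      have h6 := liftI_runs (β := Option (α × Bool)) (D := tapeDev (Option Unit))
        (inR_runs (tp u (none :: v))) (tp [] l) (tp [] (List.replicate (j + 1) ()))
      rw [tp_right] at h6
      have h7 : (lookThen (D := markDev α) (fun o => o.1) fun o =>
          match o with
          | some none => (liftC (push ())).seq (mR.seq (ret none))
          | some (some none) => mR.seq (ret (some true))
          | _ => ret (some false)).Runs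
          (tp u (none :: v), tp [] l, tp [] (List.replicate j ())) 3 (none : Option Bool)
          (tp (none :: u) v, tp [] l, tp [] (List.replicate (j + 1) ())) := by
        apply lookThen_runs
        rw [h]
        exact seq_runs h5 (seq_runs h6 (ret_runs (none : Option Bool) _))
      exact (loop_again h7 h4).mono (by simp only [List.length_cons]; omega)
    · refine ⟨true, some none :: u, v, j, by simp, by simp [markTop], by simp, ?_⟩
      apply loop_exit
      apply lookThen_runs
      rw [h]
      have h6 := liftI_runs (β := Option (α × Bool)) (D := tapeDev (Option Unit))
        (inR_runs (tp u (some none :: v))) (tp [] l) (tp [] (List.replicate j ()))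
      rw [tp_right] at h6
      exact (seq_runs h6 (ret_runs (some true) _)).mono (by simp)
    · refine ⟨false, u, some (some x) :: v, j, rfl, by simp, by simp [markTop], ?_⟩
      apply loop_exit
      apply lookThen_runs
      rw [h]
      exact (ret_runs _ _).mono (by simp)

/-- second phase: mark letters while the counter is positive -/
def phase2 : Prog (markDev α) Unit :=
  loop (lookThen (D := markDev α) (fun o => o.1) fun o =>
    match o with
    | none => (liftC pop).bind fun r =>
        match r with
        | none => ret (some ())
        | some _ => (mP none).seq (ret (some ()))
    | some (some (some x)) => (liftC pop).bind fun r =>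
        (mP (some (x, r.isSome))).seq (mR.seq (ret none))
    | _ => (mP none).seq (ret (some ())))

omit [Finite α] in
lemma pop_replicate (j : ℕ) :
    pop.Runs (tp [] (List.replicate j ())) 1 (if 0 < j then some () else none)
      (tp [] (List.replicate (j - 1) ())) := by
  cases j with
  | zero => exact pop_runs_nil
  | succ j => exact pop_runs_cons () (List.replicate j ())

lemma phase2_runs (v : List (Option (Option α))) :
    ∀ (u : List (Option (Option α))) (j : ℕ) (l : List (Option (α × Bool))),
      ∃ (u' v' : List (Option (Option α)))
      (C' : Tape (Option Unit)), u'.reverse ++ v' = u.reverse ++ v ∧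
      (phase2 (α := α)).Runs (tp u v, tp [] l, tp [] (List.replicate j ()))
        (5 * v.length + 3) () (tp u' v', tp [] ((markR j v).reverse ++ l), C') := by
  induction v with
  | nil =>
    intro u j l
    refine ⟨u, [], tp [] (List.replicate (j - 1) ()), rfl, ?_⟩
    have h : ((markDev α).obs (tp u [], tp [] l, tp [] (List.replicate j ()))).1 = none :=
      tp_zero u []
    have h5 := liftD_runs (α := Option (Option α)) (β := Option (α × Bool))
        (pop_replicate j) (tp u []) (tp [] l)
    apply loop_exit
    apply lookThen_runs
    rw [h]
    cases j with
    | zero =>
      simp only [lt_irrefl, if_false] at h5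
      exact (bind_runs (r := none) h5 (ret_runs (some ()) _)).mono (by simp)
    | succ j =>
      simp only [Nat.succ_pos, if_true] at h5
      have h6 := liftT_runs (α := Option (Option α)) (D := tapeDev (Option Unit))
        (push_runs (none : Option (α × Bool)) l) (tp u []) (tp [] (List.replicate (j + 1 - 1) ()))
      exact (bind_runs (r := some ()) h5 (seq_runs h6 (ret_runs (some ()) _))).mono (by simp)
  | cons x v ih =>
    intro u j l
    have h : ((markDev α).obs (tp u (x :: v), tp [] l, tp [] (List.replicate j ()))).1 =
      some x := tp_zero u (x :: v)
    rcases x with _ | _ | x
    · refine ⟨u, none :: v, tp [] (List.replicate j ()), rfl, ?_⟩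
      apply loop_exit
      apply lookThen_runs
      rw [h]
      have h6 := liftT_runs (α := Option (Option α)) (D := tapeDev (Option Unit))
        (push_runs (none : Option (α × Bool)) l) (tp u (none :: v)) (tp [] (List.replicate j ()))
      have e : (markR j (none :: v)).reverse ++ l = none :: l := by simp [markR]
      rw [e]
      exact (seq_runs h6 (ret_runs (some ()) _)).mono (by simp)
    · refine ⟨u, some none :: v, tp [] (List.replicate j ()), rfl, ?_⟩
      apply loop_exit
      apply lookThen_runs
      rw [h]
      have h6 := liftT_runs (α := Option (Option α)) (D := tapeDev (Option Unit))
        (push_runs (none : Option (α × Bool)) l) (tp u (some none :: v))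
        (tp [] (List.replicate j ()))
      have e : (markR j (some none :: v)).reverse ++ l = none :: l := by simp [markR]
      rw [e]
      exact (seq_runs h6 (ret_runs (some ()) _)).mono (by simp)
    · obtain ⟨u', v', C', h1, h2⟩ := ih (some (some x) :: u) (j - 1)
        (some (x, decide (0 < j)) :: l)
      refine ⟨u', v', C', by simpa using h1, ?_⟩
      have e : (markR j (some (some x) :: v)).reverse ++ l =
          (markR (j - 1) v).reverse ++ some (x, decide (0 < j)) :: l := by simp [markR]
      rw [e]
      have h5 := liftD_runs (α := Option (Option α)) (β := Option (α × Bool))
        (pop_replicate j) (tp u (some (some x) :: v)) (tp [] l)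
      have h6 := liftT_runs (α := Option (Option α)) (D := tapeDev (Option Unit))
        (push_runs (some (x, decide (0 < j)) : Option (α × Bool)) l) (tp u (some (some x) :: v))
        (tp [] (List.replicate (j - 1) ()))
      have h7 := liftI_runs (β := Option (α × Bool)) (D := tapeDev (Option Unit))
        (inR_runs (tp u (some (some x) :: v))) (tp [] (some (x, decide (0 < j)) :: l))
        (tp [] (List.replicate (j - 1) ()))
      rw [tp_right] at h7
      have e2 : (if 0 < j then some () else none).isSome = decide (0 < j) := by
        split_ifs with hj <;> simp [hj]
      have h8 := bind_runs (K := fun r => (mP (some (x, r.isSome))).seq (mR.seq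
        (ret (none : Option Unit)))) h5 (t' := 3) (r' := none)
        (s' := (tp (some (some x) :: u) v, tp [] (some (x, decide (0 < j)) :: l),
          tp [] (List.replicate (j - 1) ()))) (by
          rw [e2]
          exact seq_runs h6 (seq_runs h7 (ret_runs (none : Option Unit) _)))
      refine (loop_again (t := 4) ?_ h2).mono (by simp only [List.length_cons]; omega)
      apply lookThen_runs
      rw [h]
      exact h8

/-- The marking program (output reversed). -/
def markProg : Prog (markDev α) Unit :=
  (phase1.bind fun b => if b then phase2 else mP none).seq (passL (fun _ => []))

lemma LinFun.mark : LinFun (mark : List (Option (Option α)) → List (Option (α × Bool))) := by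
  have key : LinFun (fun x : List (Option (Option α)) => (Helper86.mark x).reverse) := by
    refine ⟨tapeDev (Option Unit), Impl.tape (Option Unit) none, markProg, 20, fun w => ?_,
      fun w l => ?_⟩
    · rw [List.length_reverse]
      have := markTop_length w 0
      unfold Helper86.mark
      omega
    · have e : (Impl.tape (Option Unit) none).init = tp [] (List.replicate 0 ()) := by
        show _ = tp [] []
        rw [tp_nil]; rfl
      obtain ⟨b, u', v', j', h1, h2, h3, h4⟩ := phase1_runs w l [] 0
      rw [List.reverse_nil, List.nil_append] at h1
      have hlen : u'.length + v'.length = w.length := by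
        rw [← h1]; simp
      cases b with
      | true =>
        obtain ⟨u'', v'', C', h5, h6⟩ := phase2_runs v' u' j' l
        have h7 := passL_runs (α := Option (Option α)) (β := Option (α × Bool))
          (D := tapeDev (Option Unit)) (fun _ => []) 0 (by simp) u'' v''
          ((markR j' v').reverse ++ l) C'
        have e1 : (u''.flatMap fun _ => ([] : List (Option (α × Bool)))) = [] := by simp
        rw [e1, List.reverse_nil, List.nil_append, h5, h1, ← h2 rfl] at h7
        rw [← h2 rfl] at h6
        refine ⟨C', ?_⟩
        rw [e]
        have h8 := seq_runs (bind_runs (K := fun b => if b then phase2 else mP none) h4 h6) h7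
        refine h8.mono ?_
        have : u''.length + v''.length = u'.length + v'.length := by
          have := congrArg List.length h5
          simpa using this
        omega
      | false =>
        have h6 := liftT_runs (α := Option (Option α)) (D := tapeDev (Option Unit))
          (push_runs (none : Option (α × Bool)) l) (tp u' v')
          (tp [] (List.replicate j' ()))
        have h7 := passL_runs (α := Option (Option α)) (β := Option (α × Bool))
          (D := tapeDev (Option Unit)) (fun _ => []) 0 (by simp) u' v'
          (none :: l) (tp [] (List.replicate j' ()))
        have e1 : (u'.flatMap fun _ => ([] : List (Option (α × Bool)))) = [] := by simp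
        have e2 : (none :: l) = (markTop 0 w).reverse ++ l := by rw [h3 rfl]; rfl
        rw [e1, List.reverse_nil, List.nil_append, h1, e2] at h7
        refine ⟨tp [] (List.replicate j' ()), ?_⟩
        rw [e]
        rw [e2] at h6
        have h8 := seq_runs (bind_runs (K := fun b => if b then phase2 else mP none) h4 h6) h7
        refine h8.mono ?_
        omega
  have h := LinFun.comp (LinFun.reverse (α := Option (α × Bool))) key
  have e : (fun w : List (Option (Option α)) => (Helper86.mark w).reverse.reverse) =
      Helper86.mark := by
    funext w; simp
  rwa [e] at h

end mark

end Pool.Agent.Helper86
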