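import Pool.Agent.Helper86.TMMark

/-!
# Padding: from LINTIME to REALTIME
-/

namespace Pool.Agent.Helper86

open Prog
open scoped Computability

section pad

variable {β : Type} (M : Machine β)

/-- States of the padding machine. -/
inductive PadState (Q : Type)
  | read
  | rew
  | sim (q : Q)
  | fin (b : Bool)
  | dead

instance {Q : Type} [Finite Q] : Finite (PadState Q) := by
  let f : PadState Q → Option (Option (Option (Q ⊕ Bool))) := fun s =>
    match s with
    | PadState.read => none
    | PadState.rew => some none
    | PadState.dead => some (some none)
    | PadState.sim q => some (some (some (Sum.inl q)))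
    | PadState.fin b => some (some (some (Sum.inr b)))
  have hf : Function.Injective f := by
    intro x y h
    cases x <;> cases y <;> simp_all [f]
  exact Finite.of_injective f hf

/-- alphabets of the padding machine -/
abbrev padΓ : Option M.ι → Type
  | none => Option β
  | some i => M.Γ i

/-- an action of the padding machine -/
def padAct (t : Option β × Dir) (W : ∀ i, M.Γ i × Dir) : ∀ i, padΓ M i × Dir
  | none => t
  | some i => W i

/-- The transition function of the padding machine. -/
def padδ (s : PadState M.Q) (a : Option β) (x : ∀ i, padΓ M i) :
    PadState M.Q × (∀ i, padΓ M i × Dir) :=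
  match s, a with
  | PadState.read, some y =>
    (PadState.read, padAct M (some y, Dir.right) (fun i => (x (some i), Dir.stay)))
  | PadState.read, none =>
    (PadState.rew, padAct M (x none, Dir.left) (fun i => (x (some i), Dir.stay)))
  | PadState.rew, none =>
    match x none with
    | some _ => (PadState.rew, padAct M (x none, Dir.left) (fun i => (x (some i), Dir.stay)))
    | none =>
      (PadState.sim M.start, padAct M (x none, Dir.right) (fun i => (x (some i), Dir.stay)))
  | PadState.sim q, none =>
    match M.δ q (x none) (fun i => x (some i)) with
    | Sum.inl b => (PadState.fin b, fun i => (x i, Dir.stay))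
    | Sum.inr (q', d, a) => (PadState.sim q', padAct M (x none, d) a)
  | PadState.fin b, none => (PadState.fin b, fun i => (x i, Dir.stay))
  | _, _ => (PadState.dead, fun i => (x i, Dir.stay))

lemma padδ_rew_some (x : ∀ i, padΓ M i) (y : β) (h : x none = some y) :
    padδ M PadState.rew none x =
      (PadState.rew, padAct M (x none, Dir.left) (fun i => (x (some i), Dir.stay))) := by
  unfold padδ
  simp only
  rw [h]

lemma padδ_rew_none (x : ∀ i, padΓ M i) (h : x none = none) :
    padδ M PadState.rew none x =
      (PadState.sim M.start, padAct M (x none, Dir.right) (fun i => (x (some i), Dir.stay))) := by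
  unfold padδ
  simp only
  rw [h]

/-- The padding machine: it reads a word over `β`, then uses the padding symbols `none` to rewind
and to simulate `M`. -/
abbrev padMachine [hβ : Finite β] : RTMachine (Option β) where
  ι := Option M.ι
  finι := by have := M.finι; infer_instance
  Γ := padΓ M
  finΓ := fun i => match i with
    | none => (inferInstance : Finite (Option β))
    | some i => M.finΓ i
  blank := fun i => match i with
    | none => none
    | some i => M.blank i
  Q := PadState M.Q
  finQ := by have := M.finQ; infer_instance
  start := PadState.read
  δ := padδ M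
  acc := {PadState.fin true}

variable [Finite β]

/-- the store of the padding machine -/
def padStore (T : Tape (Option β)) (W : ∀ i, Tape (M.Γ i)) : ∀ i, Tape (padΓ M i)
  | none => T
  | some i => W i

lemma pad_step_of (s s' : PadState M.Q) (a : Option β) (T T' : Tape (Option β))
    (W W' : ∀ i, Tape (M.Γ i)) (t : Option β × Dir) (A : ∀ i, M.Γ i × Dir)
    (h : padδ M s a (fun i => padStore M T W i 0) = (s', padAct M t A))
    (hT : (T.write t.1).move t.2 = T')
    (hW : ∀ i, ((W i).write (A i).1).move (A i).2 = W' i) :
    (padMachine M).step (s, padStore M T W) a = (s', padStore M T' W') := by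
  unfold RTMachine.step
  show ((padδ M s a (fun i => padStore M T W i 0)).1, fun i =>
    ((padStore M T W i).write ((padδ M s a (fun i => padStore M T W i 0)).2 i).1).move
      ((padδ M s a (fun i => padStore M T W i 0)).2 i).2) = _
  rw [h]
  refine Prod.ext rfl ?_
  funext i
  rcases i with _ | i
  · exact hT
  · exact hW i

omit [Finite β] in
lemma idle_work (W : ∀ i, Tape (M.Γ i)) (i : M.ι) :
    ((W i).write (W i 0)).move Dir.stay = W i :=
  congrArg (Tape.move Dir.stay) (Tape.write_self (W i))

lemma pad_step_read_some (T : Tape (Option β)) (W : ∀ i, Tape (M.Γ i)) (y : β) :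
    (padMachine M).step (PadState.read, padStore M T W) (some y) =
      (PadState.read, padStore M ((T.write (some y)).move Dir.right) W) :=
  pad_step_of M _ _ _ _ _ _ _ (some y, Dir.right) (fun i => (W i 0, Dir.stay)) rfl rfl
    (idle_work M W)

lemma pad_step_read_none (T : Tape (Option β)) (W : ∀ i, Tape (M.Γ i)) :
    (padMachine M).step (PadState.read, padStore M T W) none =
      (PadState.rew, padStore M (T.move Dir.left) W) :=
  pad_step_of M _ _ _ _ _ _ _ (T 0, Dir.left) (fun i => (W i 0, Dir.stay)) rfl
    (congrArg (Tape.move Dir.left) (Tape.write_self T)) (idle_work M W)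

lemma pad_step_rew_some (T : Tape (Option β)) (W : ∀ i, Tape (M.Γ i)) (y : β)
    (h : T 0 = some y) :
    (padMachine M).step (PadState.rew, padStore M T W) none =
      (PadState.rew, padStore M (T.move Dir.left) W) := by
  exact pad_step_of M _ _ _ _ _ _ _ (T 0, Dir.left) (fun i => (W i 0, Dir.stay))
    (padδ_rew_some M (fun i => padStore M T W i 0) y h)
    (congrArg (Tape.move Dir.left) (Tape.write_self T)) (idle_work M W)

lemma pad_step_rew_none (T : Tape (Option β)) (W : ∀ i, Tape (M.Γ i))
    (h : T 0 = none) :
    (padMachine M).step (PadState.rew, padStore M T W) none =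
      (PadState.sim M.start, padStore M (T.move Dir.right) W) := by
  exact pad_step_of M _ _ _ _ _ _ _ (T 0, Dir.right) (fun i => (W i 0, Dir.stay))
    (padδ_rew_none M (fun i => padStore M T W i 0) h)
    (congrArg (Tape.move Dir.right) (Tape.write_self T)) (idle_work M W)

lemma pad_step_fin (b : Bool) (S : ∀ i, Tape (padΓ M i)) :
    ((padMachine M).step (PadState.fin b, S) none).1 = PadState.fin b := rfl

lemma pad_step_sim_inl (c : M.Cfg) (b : Bool) (h : M.step c = Sum.inl b) :
    ((padMachine M).step (PadState.sim c.q, padStore M c.inp c.work) none).1 =
      PadState.fin b := by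
  have h1 : M.δ c.q (c.inp 0) (fun i => c.work i 0) = Sum.inl b := by
    unfold Machine.step at h
    split at h
    · rename_i b' hb'
      rw [hb']
      simp only [Sum.inl.injEq] at h
      rw [h]
    · exact absurd h (by simp)
  show (match M.δ c.q (c.inp 0) (fun i => c.work i 0) with
      | Sum.inl b => (PadState.fin b, fun i => (padStore M c.inp c.work i 0, Dir.stay))
      | Sum.inr (q', d, a) => (PadState.sim q', padAct M (c.inp 0, d) a)).1 = _
  rw [h1]

lemma pad_step_sim_inr (c c' : M.Cfg) (h : M.step c = Sum.inr c') :
    (padMachine M).step (PadState.sim c.q, padStore M c.inp c.work) none =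
      (PadState.sim c'.q, padStore M c'.inp c'.work) := by
  unfold Machine.step at h
  split at h
  · exact absurd h (by simp)
  · rename_i q' d a hδ
    simp only [Sum.inr.injEq] at h
    subst h
    refine pad_step_of M _ _ _ _ _ _ _ (c.inp 0, d) a ?_
      (congrArg (Tape.move d) (Tape.write_self c.inp)) (fun i => rfl)
    show (match M.δ c.q (c.inp 0) (fun i => c.work i 0) with
      | Sum.inl b => (PadState.fin b, fun i => (padStore M c.inp c.work i 0, Dir.stay))
      | Sum.inr (q', d, a) => (PadState.sim q', padAct M (c.inp 0, d) a)) = _
    rw [hδ]

lemma pad_fin (b : Bool) (m : ℕ) (S : ∀ i, Tape (padΓ M i)) :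
    ((List.replicate m none).foldl (padMachine M).step (PadState.fin b, S)).1 =
      PadState.fin b := by
  induction m generalizing S with
  | zero => rfl
  | succ m ih =>
    rw [List.replicate_succ, List.foldl_cons]
    exact ih _

lemma pad_sim (m : ℕ) : ∀ c : M.Cfg,
    ((List.replicate m none).foldl (padMachine M).step
      (PadState.sim c.q, padStore M c.inp c.work)).1 = PadState.fin true ↔
      ∃ k, m = k + 1 ∧ M.run k c = some true := by
  induction m with
  | zero =>
    intro c
    constructor
    · intro h
      exact absurd h (by simp)
    · rintro ⟨k, hk, _⟩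
      omega
  | succ m ih =>
    intro c
    rw [List.replicate_succ, List.foldl_cons]
    cases hs : M.step c with
    | inl b =>
      have h1 := pad_step_sim_inl M c b hs
      have h2 : ∀ X : (padMachine M).Q × (∀ i, Tape (padΓ M i)), X.1 = PadState.fin b →
          ((List.replicate m none).foldl (padMachine M).step X).1 = PadState.fin b := by
        rintro ⟨X1, X2⟩ hX
        simp only at hX
        subst hX
        exact pad_fin M b m X2
      have h3 := h2 _ h1
      constructor
      · intro h
        have h4 : (PadState.fin b : PadState M.Q) = PadState.fin true := h3.symm.trans h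
        have h5 : b = true := by injection h4
        subst h5
        refine ⟨m, rfl, ?_⟩
        cases m <;> · unfold Machine.run; rw [hs]
      · rintro ⟨k, hk, hr⟩
        have h5 : b = true := by
          have : M.run k c = some b := by
            cases k <;> · unfold Machine.run; rw [hs]
          rw [this] at hr
          simpa using hr
        subst h5
        exact h3
    | inr c' =>
      rw [pad_step_sim_inr M c c' hs]
      refine (ih c').trans ?_
      constructor
      · rintro ⟨k, rfl, hr⟩
        refine ⟨k + 1, rfl, ?_⟩
        unfold Machine.run
        rw [hs]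
        exact hr
      · rintro ⟨k, hk, hr⟩
        cases k with
        | zero =>
          unfold Machine.run at hr
          rw [hs] at hr
          exact absurd hr (by simp)
        | succ k =>
          unfold Machine.run at hr
          rw [hs] at hr
          exact ⟨k, by omega, hr⟩

lemma pad_rew (u : List β) : ∀ (v : List β) (m : ℕ) (W : ∀ i, Tape (M.Γ i)),
    ((List.replicate m none).foldl (padMachine M).step
      (PadState.rew, padStore M ((tp u v).move Dir.left) W)).1 = PadState.fin true ↔
      ∃ k, m = u.length + 2 + k ∧ M.run k ⟨M.start, tp [] (u.reverse ++ v), W⟩ = some true := by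
  induction u with
  | nil =>
    intro v m W
    cases m with
    | zero =>
      constructor
      · intro h
        exact absurd h (by simp)
      · rintro ⟨k, hk, _⟩
        omega
    | succ m =>
      rw [List.replicate_succ, List.foldl_cons]
      have h1 := pad_step_rew_none M ((tp [] v).move Dir.left) W (tpL_zero v)
      have h2 : ((tp [] v).move Dir.left).move Dir.right = tp [] v := tpL_right v
      rw [h2] at h1
      rw [h1]
      refine (pad_sim M m ⟨M.start, tp [] v, W⟩).trans ?_
      simp only [List.length_nil, List.reverse_nil, List.nil_append]
      constructor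
      · rintro ⟨k, hk, hr⟩
        exact ⟨k, by omega, hr⟩
      · rintro ⟨k, hk, hr⟩
        exact ⟨k, by omega, hr⟩
  | cons x u ih =>
    intro v m W
    cases m with
    | zero =>
      constructor
      · intro h
        exact absurd h (by simp)
      · rintro ⟨k, hk, _⟩
        omega
    | succ m =>
      rw [List.replicate_succ, List.foldl_cons, tp_left]
      have h1 := pad_step_rew_some M (tp u (x :: v)) W x (tp_zero u (x :: v))
      rw [h1]
      refine (ih (x :: v) m W).trans ?_
      simp only [List.length_cons, List.reverse_cons, List.append_assoc, List.singleton_append]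
      constructor
      · rintro ⟨k, hk, hr⟩
        exact ⟨k, by omega, hr⟩
      · rintro ⟨k, hk, hr⟩
        exact ⟨k, by omega, hr⟩

lemma pad_read (w : List β) : ∀ (u : List β) (W : ∀ i, Tape (M.Γ i)),
    (w.map some).foldl (padMachine M).step (PadState.read, padStore M (tp u []) W) =
      (PadState.read, padStore M (tp (w.reverse ++ u) []) W) := by
  induction w with
  | nil => intro u W; rfl
  | cons x w ih =>
    intro u W
    rw [List.map_cons, List.foldl_cons]
    have h1 := pad_step_read_some M (tp u []) W x
    rw [tp_write_nil, tp_right] at h1
    rw [h1]
    refine (ih (x :: u) W).trans ?_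
    have e : w.reverse ++ x :: u = (x :: w).reverse ++ u := by simp
    rw [e]

/-- The language of the padding machine, on words of the form `w` followed by padding. -/
theorem mem_pad (w : List β) (m : ℕ) :
    w.map some ++ List.replicate m none ∈ (padMachine M).language ↔
      ∃ k, m = w.length + 3 + k ∧ M.run k (M.init w) = some true := by
  have e : ((padMachine M).start, fun i (_ : ℤ) => (padMachine M).blank i) =
      ((PadState.read : PadState M.Q), padStore M (tp [] []) (fun i _ => M.blank i)) := by
    refine Prod.ext rfl ?_
    funext i
    rcases i with _ | i
    · exact tp_nil.symm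
    · rfl
  show ((w.map some ++ List.replicate m none).foldl (padMachine M).step
    ((padMachine M).start, fun i (_ : ℤ) => (padMachine M).blank i)).1 = PadState.fin true ↔ _
  rw [e, List.foldl_append, pad_read, List.append_nil]
  cases m with
  | zero =>
    constructor
    · intro h
      exact absurd h (by simp)
    · rintro ⟨k, hk, _⟩
      omega
  | succ m =>
    rw [List.replicate_succ, List.foldl_cons, pad_step_read_none]
    refine (pad_rew M w.reverse [] m _).trans ?_
    have e2 : M.init w = ⟨M.start, tp [] w, fun i _ => M.blank i⟩ := by
      unfold Machine.init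
      rw [inputTape_eq]
    simp only [List.length_reverse, List.reverse_reverse, List.append_nil, e2]
    constructor
    · rintro ⟨k, hk, hr⟩
      exact ⟨k, by omega, hr⟩
    · rintro ⟨k, hk, hr⟩
      exact ⟨k, by omega, hr⟩

end pad

end Pool.Agent.Helper86
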