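import Pool.Agent.Helper86.TMBase

/-!
# Composable programs over devices

A device is an abstract store with observations and actions.  Programs are finite-state
controllers; they compose by `bind`, `loop`, and along lenses between devices.
-/

namespace Pool.Agent.Helper86

/-- A device: a store that can be observed and acted on. -/
structure Device where
  S : Type
  O : Type
  A : Type
  obs : S → O
  act : A → S → S
  idle : A
  act_idle : ∀ s, act idle s = s

/-- A program: a finite-state controller of a device, halting with a result in `R`. -/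
structure Prog (D : Device) (R : Type) where
  Q : Type
  finQ : Finite Q
  start : Q
  δ : Q → D.O → R ⊕ (Q × D.A)

namespace Prog

variable {D : Device} {R R' : Type}

/-- `P.Ends q s t r s'`: started in state `q` with store `s` the program halts after exactly `t`
steps with result `r` and store `s'`. -/
inductive Ends (P : Prog D R) : P.Q → D.S → ℕ → R → D.S → Prop
  | halt {q s r} : P.δ q (D.obs s) = Sum.inl r → Ends P q s 0 r s
  | step {q s q' a t r s'} : P.δ q (D.obs s) = Sum.inr (q', a) → Ends P q' (D.act a s) t r s' →
      Ends P q s (t + 1) r s'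

/-- `P.Runs s t r s'`: started with store `s` the program halts within `t` steps with result `r`
and store `s'`. -/
def Runs (P : Prog D R) (s : D.S) (t : ℕ) (r : R) (s' : D.S) : Prop :=
  ∃ t' ≤ t, P.Ends P.start s t' r s'

lemma Runs.mono {P : Prog D R} {s s' : D.S} {t t' : ℕ} {r : R} (h : P.Runs s t r s')
    (htt : t ≤ t') : P.Runs s t' r s' := by
  obtain ⟨u, hu, h⟩ := h
  exact ⟨u, hu.trans htt, h⟩

/-- Return a result at once. -/
def ret (r : R) : Prog D R where
  Q := Unit
  finQ := inferInstance
  start := ()
  δ _ _ := Sum.inl r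

/-- Observe and return. -/
def look (f : D.O → R) : Prog D R where
  Q := Unit
  finQ := inferInstance
  start := ()
  δ _ o := Sum.inl (f o)

/-- Do one action. -/
def doAct (a : D.A) : Prog D Unit where
  Q := Bool
  finQ := inferInstance
  start := true
  δ b _ := if b then Sum.inr (false, a) else Sum.inl ()

lemma ret_runs (r : R) (s : D.S) : (ret r : Prog D R).Runs s 0 r s :=
  ⟨0, le_rfl, Ends.halt rfl⟩

lemma look_runs (f : D.O → R) (s : D.S) : (look f : Prog D R).Runs s 0 (f (D.obs s)) s :=
  ⟨0, le_rfl, Ends.halt rfl⟩

lemma doAct_runs (a : D.A) (s : D.S) : (doAct a : Prog D Unit).Runs s 1 () (D.act a s) :=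
  ⟨1, le_rfl, Ends.step (q' := false) (a := a) rfl (Ends.halt rfl)⟩

/-- Sequential composition. -/
def bind [hR : Finite R] (P : Prog D R) (K : R → Prog D R') : Prog D R' where
  Q := P.Q ⊕ (Σ r, (K r).Q)
  finQ := by
    have := P.finQ
    have := fun r => (K r).finQ
    infer_instance
  start := Sum.inl P.start
  δ q o :=
    match q with
    | Sum.inl q =>
      match P.δ q o with
      | Sum.inl r =>
        match (K r).δ (K r).start o with
        | Sum.inl r' => Sum.inl r'
        | Sum.inr (q', a) => Sum.inr (Sum.inr ⟨r, q'⟩, a)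
      | Sum.inr (q', a) => Sum.inr (Sum.inl q', a)
    | Sum.inr ⟨r, q⟩ =>
      match (K r).δ q o with
      | Sum.inl r' => Sum.inl r'
      | Sum.inr (q', a) => Sum.inr (Sum.inr ⟨r, q'⟩, a)

lemma bind_ends_right [Finite R] {P : Prog D R} {K : R → Prog D R'} {r : R} {q : (K r).Q}
    {s s' : D.S} {t : ℕ} {r' : R'} (h : (K r).Ends q s t r' s') :
    (P.bind K).Ends (Sum.inr ⟨r, q⟩) s t r' s' := by
  induction h with
  | halt h => exact Ends.halt (by simp [bind, h])
  | @step q s q' a t r'' s' h _ ih =>
    exact Ends.step (q' := Sum.inr ⟨r, q'⟩) (a := a) (by simp [bind, h]) ih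

lemma bind_ends_left [Finite R] {P : Prog D R} {K : R → Prog D R'} {q : P.Q}
    {s s₁ s' : D.S} {t t' : ℕ} {r : R} {r' : R'} (h : P.Ends q s t r s₁)
    (h' : (K r).Ends (K r).start s₁ t' r' s') :
    (P.bind K).Ends (Sum.inl q) s (t + t') r' s' := by
  induction h with
  | @halt q s r h =>
    rw [Nat.zero_add]
    cases h' with
    | halt h' => exact Ends.halt (by simp [bind, h, h'])
    | @step _ _ q' a t'' _ _ h' h'' =>
      exact Ends.step (q' := Sum.inr ⟨r, q'⟩) (a := a) (by simp [bind, h, h'])
        (bind_ends_right h'')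
  | @step q s q' a t r s' h _ ih =>
    have e : t + 1 + t' = (t + t') + 1 := by omega
    rw [e]
    exact Ends.step (q' := Sum.inl q') (a := a) (by simp [bind, h]) (ih h')

lemma bind_runs [Finite R] {P : Prog D R} {K : R → Prog D R'} {s s₁ s' : D.S} {t t' : ℕ}
    {r : R} {r' : R'} (h : P.Runs s t r s₁) (h' : (K r).Runs s₁ t' r' s') :
    (P.bind K).Runs s (t + t') r' s' := by
  obtain ⟨u, hu, h⟩ := h
  obtain ⟨u', hu', h'⟩ := h'
  exact ⟨u + u', by omega, bind_ends_left h h'⟩

/-- Sequential composition without passing a result. -/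
def seq (P : Prog D Unit) (P' : Prog D R') : Prog D R' := P.bind fun _ => P'

lemma seq_runs {P : Prog D Unit} {P' : Prog D R'} {s s₁ s' : D.S} {t t' : ℕ} {r' : R'}
    (h : P.Runs s t () s₁) (h' : P'.Runs s₁ t' r' s') : (P.seq P').Runs s (t + t') r' s' :=
  bind_runs (K := fun _ => P') h h'

/-- Observe and branch. -/
def lookThen [Finite R] (f : D.O → R) (K : R → Prog D R') : Prog D R' := (look f).bind K

lemma lookThen_runs [Finite R] {f : D.O → R} {K : R → Prog D R'} {s s' : D.S} {t : ℕ} {r' : R'}
    (h : (K (f (D.obs s))).Runs s t r' s') : (lookThen f K).Runs s t r' s' := by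
  have := bind_runs (K := K) (look_runs f s) h
  rwa [Nat.zero_add] at this

/-- Iteration: run `P`; on result `none` start again, on result `some r` halt with `r`. -/
def loop (P : Prog D (Option R)) : Prog D R where
  Q := P.Q
  finQ := P.finQ
  start := P.start
  δ q o :=
    match P.δ q o with
    | Sum.inl none => Sum.inr (P.start, D.idle)
    | Sum.inl (some r) => Sum.inl r
    | Sum.inr (q', a) => Sum.inr (q', a)

lemma loop_ends_exit {P : Prog D (Option R)} {q : P.Q} {s s' : D.S} {t : ℕ} {r : R}
    (h : P.Ends q s t (some r) s') : (loop P).Ends q s t r s' := by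
  generalize hr : some r = r₀ at h
  induction h with
  | @halt q s r₁ h =>
    subst hr
    exact Ends.halt (by simp [loop, h])
  | @step q s q' a t r₁ s' h _ ih =>
    subst hr
    exact Ends.step (P := loop P) (q := q) (q' := q') (a := a) (by simp [loop, h]) (ih rfl)

lemma loop_ends_again {P : Prog D (Option R)} {q : P.Q} {s s₁ s' : D.S} {t t' : ℕ} {r : R}
    (h : P.Ends q s t none s₁) (h' : (loop P).Ends P.start s₁ t' r s') :
    (loop P).Ends q s (t + 1 + t') r s' := by
  generalize hr : (none : Option R) = r₀ at h
  induction h with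
  | @halt q s r₁ h =>
    subst hr
    rw [show 0 + 1 + t' = t' + 1 by omega]
    refine Ends.step (P := loop P) (q := q) (q' := P.start) (a := D.idle) (by simp [loop, h]) ?_
    rw [D.act_idle]
    exact h'
  | @step q s q' a t r₁ s₁ h _ ih =>
    subst hr
    rw [show t + 1 + 1 + t' = (t + 1 + t') + 1 by omega]
    exact Ends.step (P := loop P) (q := q) (q' := q') (a := a) (by simp [loop, h]) (ih h' rfl)

lemma loop_exit {P : Prog D (Option R)} {s s' : D.S} {t : ℕ} {r : R}
    (h : P.Runs s t (some r) s') : (loop P).Runs s t r s' := by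
  obtain ⟨u, hu, h⟩ := h
  exact ⟨u, hu, loop_ends_exit h⟩

lemma loop_again {P : Prog D (Option R)} {s s₁ s' : D.S} {t t' : ℕ} {r : R}
    (h : P.Runs s t none s₁) (h' : (loop P).Runs s₁ t' r s') :
    (loop P).Runs s (t + 1 + t') r s' := by
  obtain ⟨u, hu, h⟩ := h
  obtain ⟨u', hu', h'⟩ := h'
  exact ⟨u + 1 + u', by omega, loop_ends_again h h'⟩

end Prog

/-- A lens from the device `D` to a component `D₁`. -/
structure Lens (D D₁ : Device) where
  get : D.S → D₁.S
  put : D₁.S → D.S → D.S
  getO : D.O → D₁.O
  putA : D₁.A → D.A
  getO_obs : ∀ s, getO (D.obs s) = D₁.obs (get s)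
  act_put : ∀ a s, D.act (putA a) s = put (D₁.act a (get s)) s
  get_put : ∀ x s, get (put x s) = x
  put_put : ∀ x y s, put x (put y s) = put x s
  put_get : ∀ s, put (get s) s = s

namespace Lens

variable {D D₁ D₂ : Device}

/-- identity lens -/
def id (D : Device) : Lens D D where
  get s := s
  put x _ := x
  getO o := o
  putA a := a
  getO_obs _ := rfl
  act_put _ _ := rfl
  get_put _ _ := rfl
  put_put _ _ _ := rfl
  put_get _ := rfl

/-- composition of lenses -/
def comp (e : Lens D D₁) (f : Lens D₁ D₂) : Lens D D₂ where
  get s := f.get (e.get s)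
  put x s := e.put (f.put x (e.get s)) s
  getO o := f.getO (e.getO o)
  putA a := e.putA (f.putA a)
  getO_obs s := by rw [e.getO_obs, f.getO_obs]
  act_put a s := by rw [e.act_put, f.act_put]
  get_put x s := by rw [e.get_put, f.get_put]
  put_put x y s := by rw [e.get_put, e.put_put, f.put_put]
  put_get s := by rw [f.put_get, e.put_get]

end Lens

namespace Prog

variable {D D₁ : Device} {R : Type}

/-- Run a program on a component of the store. -/
def lift (e : Lens D D₁) (P : Prog D₁ R) : Prog D R where
  Q := P.Q
  finQ := P.finQ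
  start := P.start
  δ q o :=
    match P.δ q (e.getO o) with
    | Sum.inl r => Sum.inl r
    | Sum.inr (q', a) => Sum.inr (q', e.putA a)

lemma lift_ends (e : Lens D D₁) {P : Prog D₁ R} {q : P.Q} {x x' : D₁.S} {t : ℕ} {r : R}
    (h : P.Ends q x t r x') : ∀ s : D.S, e.get s = x → (lift e P).Ends q s t r (e.put x' s) := by
  induction h with
  | @halt q x r h =>
    intro s hs
    subst hs
    rw [e.put_get]
    exact Ends.halt (by simp [lift, e.getO_obs, h])
  | @step q x q' a t r x' h _ ih =>
    intro s hs
    subst hs
    refine Ends.step (P := lift e P) (q := q) (q' := q') (a := e.putA a)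
      (by simp [lift, e.getO_obs, h]) ?_
    rw [e.act_put]
    have := ih (e.put (D₁.act a (e.get s)) s) (e.get_put _ _)
    rwa [e.put_put] at this

lemma lift_runs (e : Lens D D₁) {P : Prog D₁ R} {s : D.S} {x' : D₁.S} {t : ℕ} {r : R}
    (h : P.Runs (e.get s) t r x') : (lift e P).Runs s t r (e.put x' s) := by
  obtain ⟨u, hu, h⟩ := h
  exact ⟨u, hu, lift_ends e h s rfl⟩

end Prog

/-- Product of devices, acting simultaneously. -/
abbrev Device.prod (D E : Device) : Device where
  S := D.S × E.S
  O := D.O × E.O
  A := D.A × E.A
  obs s := (D.obs s.1, E.obs s.2)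
  act a s := (D.act a.1 s.1, E.act a.2 s.2)
  idle := (D.idle, E.idle)
  act_idle s := by simp [D.act_idle, E.act_idle]

/-- first component -/
def Lens.fst (D E : Device) : Lens (D.prod E) D where
  get s := s.1
  put x s := (x, s.2)
  getO o := o.1
  putA a := (a, E.idle)
  getO_obs _ := rfl
  act_put a s := by simp [Device.prod, E.act_idle]
  get_put _ _ := rfl
  put_put _ _ _ := rfl
  put_get _ := rfl

/-- second component -/
def Lens.snd (D E : Device) : Lens (D.prod E) E where
  get s := s.2
  put x s := (s.1, x)
  getO o := o.2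
  putA a := (D.idle, a)
  getO_obs _ := rfl
  act_put a s := by simp [Device.prod, D.act_idle]
  get_put _ _ := rfl
  put_put _ _ _ := rfl
  put_get _ := rfl

/-- A read/write tape with alphabet `Γ`; the action `(none, d)` keeps the symbol and moves. -/
abbrev tapeDev (Γ : Type) : Device where
  S := Tape Γ
  O := Γ
  A := Option Γ × Dir
  obs T := T 0
  act a T := match a.1 with
    | none => T.move a.2
    | some x => (T.write x).move a.2
  idle := (none, Dir.stay)
  act_idle _ := rfl

/-- A read-only tape with alphabet `Γ`. -/
abbrev roDev (Γ : Type) : Device where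
  S := Tape Γ
  O := Γ
  A := Dir
  obs T := T 0
  act d T := T.move d
  idle := Dir.stay
  act_idle _ := rfl

/-- A read/write tape can be used as a read-only tape. -/
def Lens.ro (Γ : Type) : Lens (tapeDev Γ) (roDev Γ) where
  get s := s
  put x _ := x
  getO o := o
  putA d := (none, d)
  getO_obs _ := rfl
  act_put _ _ := rfl
  get_put _ _ := rfl
  put_put _ _ _ := rfl
  put_get _ := rfl

/-- Work tapes: a finite family of tapes; action `none` is idle. -/
abbrev workDev {ι : Type} (Γ : ι → Type) : Device where
  S := ∀ i, Tape (Γ i)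
  O := ∀ i, Γ i
  A := Option (∀ i, Γ i × Dir)
  obs T i := T i 0
  act a T := match a with
    | none => T
    | some a => fun i => ((T i).write (a i).1).move (a i).2
  idle := none
  act_idle _ := rfl

/-- The program of a machine, acting on a read-only tape and work tapes. -/
def Machine.prog {α : Type} (M : Machine α) :
    Prog ((roDev (Option α)).prod (workDev M.Γ)) Bool where
  Q := M.Q
  finQ := M.finQ
  start := M.start
  δ q o :=
    match M.δ q o.1 o.2 with
    | Sum.inl b => Sum.inl b
    | Sum.inr (q', d, a) => Sum.inr (q', (d, some a))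

lemma Machine.prog_ends {α : Type} (M : Machine α) {b : Bool} :
    ∀ (t : ℕ) (c : M.Cfg), M.run t c = some b →
      ∃ s' t', t' ≤ t ∧ M.prog.Ends c.q (c.inp, c.work) t' b s' := by
  intro t
  induction t with
  | zero =>
    intro c h
    unfold Machine.run at h
    split at h
    · rename_i b' hb'
      unfold Machine.step at hb'
      split at hb'
      · rename_i b'' hb''
        refine ⟨(c.inp, c.work), 0, le_rfl, Prog.Ends.halt ?_⟩
        simp only [Option.some.injEq] at h
        simp only [Sum.inl.injEq] at hb'
        subst hb' h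
        simp only [prog, Device.prod, roDev, workDev, hb'']
      · exact absurd hb' (by simp)
    · exact absurd h (by simp)
  | succ t ih =>
    intro c h
    unfold Machine.run at h
    split at h
    · rename_i b' hb'
      unfold Machine.step at hb'
      split at hb'
      · rename_i b'' hb''
        refine ⟨(c.inp, c.work), 0, by omega, Prog.Ends.halt ?_⟩
        simp only [Option.some.injEq] at h
        simp only [Sum.inl.injEq] at hb'
        subst hb' h
        simp only [prog, Device.prod, roDev, workDev, hb'']
      · exact absurd hb' (by simp)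
    · rename_i c' hc'
      unfold Machine.step at hc'
      split at hc'
      · exact absurd hc' (by simp)
      · rename_i q' d a hδ
        simp only [Sum.inr.injEq] at hc'
        obtain ⟨s', t', ht', hE⟩ := ih c' h
        refine ⟨s', t' + 1, by omega, Prog.Ends.step (q' := q') (a := (d, some a)) ?_ ?_⟩
        · simp only [prog, Device.prod, roDev, workDev, hδ]
        · subst hc'
          exact hE

lemma Machine.prog_runs {α : Type} (M : Machine α) {b : Bool} {t : ℕ} {w : List α}
    (h : M.run t (M.init w) = some b) :
    ∃ s', M.prog.Runs (inputTape w, fun i _ => M.blank i) t b s' := by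
  obtain ⟨s', t', ht', h⟩ := M.prog_ends t _ h
  exact ⟨s', t', ht', h⟩

end Pool.Agent.Helper86
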