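import Pool.Agent.Helper86.TMClosure

/-!
# Real-time languages and a marking function
-/

namespace Pool.Agent.Helper86

open Prog
open scoped Computability

/-- `REALTIME ⊆ LINTIME`. -/
theorem REALTIME.lintime {α : Type} {L : Language α} (h : REALTIME L) : LINTIME L := by
  classical
  obtain ⟨M, rfl⟩ := h
  let N : Machine α :=
    { ι := M.ι
      finι := M.finι
      Γ := M.Γ
      finΓ := M.finΓ
      blank := M.blank
      Q := M.Q
      finQ := M.finQ
      start := M.start
      δ := fun q o x => match o with
        | none => Sum.inl (decide (q ∈ M.acc))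
        | some a => Sum.inr ((M.δ q a x).1, Dir.right, (M.δ q a x).2) }
  have key : ∀ (v u : List α) (c : M.Q × (∀ i, Tape (M.Γ i))) (b : Bool),
      decide ((v.foldl M.step c).1 ∈ M.acc) = b →
      N.run v.length ⟨c.1, tp u v, c.2⟩ = some b := by
    intro v
    induction v with
    | nil =>
      intro u c b hb
      have h0 : (tp u ([] : List α)) 0 = none := tp_zero u []
      have h1 : N.step ⟨c.1, tp u [], c.2⟩ = Sum.inl (decide (c.1 ∈ M.acc)) := by
        simp only [Machine.step, h0, N]
      show N.run 0 _ = _
      unfold Machine.run
      rw [h1, ← hb]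
      rfl
    | cons a v ih =>
      intro u c b hb
      have h0 : (tp u (a :: v)) 0 = some a := tp_zero u (a :: v)
      have h1 : N.step ⟨c.1, tp u (a :: v), c.2⟩ =
          Sum.inr ⟨(M.step c a).1, tp (a :: u) v, (M.step c a).2⟩ := by
        simp only [Machine.step, h0, N, tp_right]
        rfl
      show N.run (v.length + 1) _ = _
      unfold Machine.run
      rw [h1]
      exact ih (a :: u) (M.step c a) b hb
  refine ⟨N, 1, fun w => ?_⟩
  have h := key w [] (M.start, fun i _ => M.blank i) _ rfl
  have h' := Machine.run_mono N (t' := 1 * (w.length + 1)) (by omega) h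
  have e : N.init w = ⟨M.start, tp [] w, fun i _ => M.blank i⟩ := by
    unfold Machine.init
    rw [inputTape_eq]
  constructor
  · intro hw
    rw [e, h']
    congr 1
    exact decide_eq_true hw
  · intro hw
    rw [e, h']
    congr 1
    exact decide_eq_false hw

/-- Languages recognised by finite automata (given by a right-to-left... left-to-right fold). -/
lemma REALTIME_of_fold {α : Type} {σ : Type} [hσ : Finite σ] (s₀ : σ) (f : σ → α → σ)
    (A : Set σ) : REALTIME {w : List α | w.foldl f s₀ ∈ A} := by
  let M : RTMachine α :=
    { ι := Empty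
      finι := inferInstance
      Γ := fun _ => Unit
      finΓ := fun _ => inferInstance
      blank := fun _ => ()
      Q := σ
      finQ := hσ
      start := s₀
      δ := fun q a x => (f q a, fun i => i.elim)
      acc := A }
  refine ⟨M, ?_⟩
  have key : ∀ (w : List α) (c : σ × (∀ i : Empty, Tape Unit)),
      (w.foldl M.step c).1 = w.foldl f c.1 := by
    intro w
    induction w with
    | nil => intro c; rfl
    | cons a w ih => intro c; exact ih (M.step c a)
  ext w
  show (w.foldl M.step (s₀, fun i _ => ())).1 ∈ A ↔ w.foldl f s₀ ∈ A
  rw [key]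

lemma REALTIME_forall {α : Type} (p : α → Prop) : REALTIME {w : List α | ∀ x ∈ w, p x} := by
  classical
  have h := REALTIME_of_fold (α := α) (σ := Bool) true (fun b x => b && decide (p x)) {true}
  have key : ∀ (w : List α) (b : Bool),
      w.foldl (fun b x => b && decide (p x)) b = true ↔ (b = true ∧ ∀ x ∈ w, p x) := by
    intro w
    induction w with
    | nil => intro b; simp
    | cons a w ih => intro b; simp [ih, and_assoc]
  have e : {w : List α | w.foldl (fun b x => b && decide (p x)) true ∈ ({true} : Set Bool)} =
      {w : List α | ∀ x ∈ w, p x} := by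
    ext w
    simp [key]
  rwa [e] at h

lemma mem_kstar_singleton {α : Type} (a : α) (w : List α) :
    w ∈ ({[a]} : Language α)∗ ↔ ∀ x ∈ w, x = a := by
  rw [Language.mem_kstar]
  constructor
  · rintro ⟨L, rfl, hL⟩ x hx
    rw [List.mem_flatten] at hx
    obtain ⟨l, hl, hx⟩ := hx
    have := hL l hl
    rw [Set.mem_singleton_iff.mp this] at hx
    simpa using hx
  · intro h
    refine ⟨w.map fun x => [x], ?_, ?_⟩
    · induction w with
      | nil => rfl
      | cons x w ih =>
        rw [List.map_cons, List.flatten_cons, ← ih (fun y hy => h y (List.mem_cons_of_mem _ hy))]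
        rfl
    · intro y hy
      rw [List.mem_map] at hy
      obtain ⟨x, hx, rfl⟩ := hy
      rw [h x hx]
      exact rfl

lemma REALTIME_kstar_singleton {α : Type} (a : α) : REALTIME (({[a]} : Language α)∗) := by
  have h := REALTIME_forall (α := α) (fun x => x = a)
  have e : {w : List α | ∀ x ∈ w, x = a} = ({[a]} : Language α)∗ := by
    ext w
    exact (mem_kstar_singleton a w).symm
  rwa [e] at h

/-! ### Reversal -/

lemma LinFun.reverse {α : Type} [Finite α] : LinFun (fun w : List α => w.reverse) := by
  refine ⟨unitDev, Impl.unit, (passR (fun x => [x])).seq (passL (fun _ => [])),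
    8, fun w => ?_, fun w l => ⟨(), ?_⟩⟩
  · rw [List.length_reverse]; omega
  · have h1 := passR_runs (α := α) (β := α) (D := unitDev) (fun x => [x]) 1 (by simp) [] w l ()
    have h2 := passL_runs (α := α) (β := α) (D := unitDev) (fun x => []) 0
      (by simp) w.reverse [] (w.reverse ++ l) ()
    have e1 : ((w.flatMap fun x => [x]).reverse ++ l) = w.reverse ++ l := by simp
    have e2 : ((w.reverse.flatMap fun _ => ([] : List α)).reverse ++ (w.reverse ++ l)) =
        w.reverse ++ l := by
      have : (w.reverse.flatMap fun _ => ([] : List α)) = [] := by simp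
      rw [this]; rfl
    rw [e1, List.append_nil] at h1
    rw [e2, List.reverse_reverse, List.append_nil, List.length_reverse] at h2
    exact (seq_runs h1 h2).mono (by omega)

end Pool.Agent.Helper86
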