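import Pool.Agent.Helper86.TMCompile

/-!
# Tapes as zippers and stacks, basic programs
-/

namespace Pool.Agent.Helper86

open Prog

section tapes

variable {Γ : Type}

/-- The tape with `v` at and to the right of the head, and `u` to the left of the head (nearest
cell first), blank elsewhere. -/
def tp (u v : List Γ) : Tape (Option Γ) :=
  fun z => if 0 ≤ z then v[z.toNat]? else u[(-z - 1).toNat]?

lemma inputTape_eq (w : List Γ) : inputTape w = tp [] w := by
  funext z
  unfold inputTape tp
  split_ifs <;> simp

@[simp] lemma tp_zero (u v : List Γ) : tp u v 0 = v.head? := by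
  simp [tp, List.head?_eq_getElem?]

lemma tp_right (u v : List Γ) (x : Γ) : (tp u (x :: v)).move Dir.right = tp (x :: u) v := by
  funext z
  show tp u (x :: v) (z + 1) = tp (x :: u) v z
  unfold tp
  rcases lt_trichotomy z (-1) with h | h | h
  · have h1 : ¬ (0 ≤ z + 1) := by omega
    have h2 : ¬ (0 ≤ z) := by omega
    rw [if_neg h1, if_neg h2]
    have h3 : (-z - 1).toNat = (-(z + 1) - 1).toNat + 1 := by omega
    rw [h3, List.getElem?_cons_succ]
  · subst h
    simp
  · have h1 : 0 ≤ z + 1 := by omega
    have h2 : 0 ≤ z := by omega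
    rw [if_pos h1, if_pos h2]
    have h3 : (z + 1).toNat = z.toNat + 1 := by omega
    rw [h3, List.getElem?_cons_succ]

lemma Tape.move_left_right {Γ : Type} (T : Tape Γ) : (T.move Dir.left).move Dir.right = T := by
  funext z
  show T (z + 1 - 1) = T z
  congr 1; omega

lemma Tape.move_right_left {Γ : Type} (T : Tape Γ) : (T.move Dir.right).move Dir.left = T := by
  funext z
  show T (z - 1 + 1) = T z
  congr 1; omega

lemma tp_left (u v : List Γ) (x : Γ) : (tp (x :: u) v).move Dir.left = tp u (x :: v) := by
  rw [← tp_right, Tape.move_right_left]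

lemma tp_nil : (tp [] [] : Tape (Option Γ)) = fun _ => none := by
  funext z; simp [tp]

lemma tp_nil_move (d : Dir) : (tp [] [] : Tape (Option Γ)).move d = tp [] [] := by
  rw [tp_nil]; cases d <;> rfl

/-- write on a nonempty right part -/
lemma tp_write_cons (u v : List Γ) (x y : Γ) :
    (tp u (x :: v)).write (some y) = tp u (y :: v) := by
  funext z
  unfold Tape.write
  by_cases hz : z = 0
  · subst hz; simp
  · rw [Function.update_of_ne hz]
    unfold tp
    split_ifs with h
    · obtain ⟨k, hk⟩ : ∃ k, z.toNat = k + 1 := ⟨z.toNat - 1, by omega⟩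
      rw [hk]; simp
    · rfl

lemma tp_write_nil (u : List Γ) (y : Γ) :
    (tp u []).write (some y) = tp u [y] := by
  funext z
  unfold Tape.write
  by_cases hz : z = 0
  · subst hz; simp
  · rw [Function.update_of_ne hz]
    unfold tp
    split_ifs with h
    · obtain ⟨k, hk⟩ : ∃ k, z.toNat = k + 1 := ⟨z.toNat - 1, by omega⟩
      rw [hk]; simp
    · rfl

/-- The tape of `tp [] v` with the head one cell further to the left. -/
def tpL (v : List Γ) : Tape (Option Γ) := (tp [] v).move Dir.left

@[simp] lemma tpL_zero (v : List Γ) : tpL v 0 = none := by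
  show tp [] v (0 - 1) = none
  simp [tp]

lemma tpL_right (v : List Γ) : (tpL v).move Dir.right = tp [] v := Tape.move_left_right _

lemma tpL_write (v : List Γ) (y : Γ) : (tpL v).write (some y) = tp [] (y :: v) := by
  funext z
  unfold Tape.write
  by_cases hz : z = 0
  · subst hz; simp
  · rw [Function.update_of_ne hz]
    show tp [] v (z - 1) = tp [] (y :: v) z
    unfold tp
    by_cases h : 0 ≤ z
    · have h1 : 0 ≤ z - 1 := by omega
      rw [if_pos h, if_pos h1]
      have h3 : z.toNat = (z - 1).toNat + 1 := by omega
      rw [h3, List.getElem?_cons_succ]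
    · have h1 : ¬ 0 ≤ z - 1 := by omega
      rw [if_neg h, if_neg h1]
      simp

/-- pop: erase and move right -/
lemma tp_pop (x : Γ) (v : List Γ) :
    ((tp [] (x :: v)).write none).move Dir.right = tp [] v := by
  funext z
  show Function.update (tp [] (x :: v)) 0 none (z + 1) = tp [] v z
  by_cases hz : z + 1 = 0
  · rw [hz, Function.update_self]
    unfold tp
    rw [if_neg (by omega)]
    simp
  · rw [Function.update_of_ne hz]
    have := congrFun (tp_right [] v x) z
    change tp [] (x :: v) (z + 1) = tp [x] v z at this
    rw [this]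
    unfold tp
    split_ifs with h
    · rfl
    · obtain ⟨k, hk⟩ : ∃ k, (-z - 1).toNat = k + 1 := ⟨(-z - 1).toNat - 1, by omega⟩
      rw [hk]; simp

end tapes

/-! ### Basic programs on a stack tape -/

section stack

variable {Γ : Type}

/-- Push a symbol on a stack tape. -/
def push (x : Γ) : Prog (tapeDev (Option Γ)) Unit :=
  (doAct (D := tapeDev (Option Γ)) (none, Dir.left)).seq
    (doAct (D := tapeDev (Option Γ)) (some (some x), Dir.stay))

lemma push_runs (x : Γ) (l : List Γ) : (push x).Runs (tp [] l) 2 () (tp [] (x :: l)) := by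
  have h1 : (doAct (D := tapeDev (Option Γ)) (none, Dir.left)).Runs (tp [] l) 1 () (tpL l) :=
    doAct_runs _ _
  have h2 : (doAct (D := tapeDev (Option Γ)) (some (some x), Dir.stay)).Runs (tpL l) 1 ()
      (tp [] (x :: l)) := by
    have := doAct_runs (D := tapeDev (Option Γ)) (some (some x), Dir.stay) (tpL l)
    have h3 : (tapeDev (Option Γ)).act (some (some x), Dir.stay) (tpL l) = tp [] (x :: l) :=
      tpL_write l x
    rwa [h3] at this
  exact seq_runs h1 h2

/-- Push the symbols of a list, in order (the last one ends up on top). -/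
def pushList : List Γ → Prog (tapeDev (Option Γ)) Unit
  | [] => ret ()
  | x :: xs => (push x).seq (pushList xs)

lemma pushList_runs (xs l : List Γ) :
    (pushList xs).Runs (tp [] l) (2 * xs.length) () (tp [] (xs.reverse ++ l)) := by
  induction xs generalizing l with
  | nil => exact ret_runs _ _
  | cons x xs ih =>
    have h := seq_runs (push_runs x l) (ih (x :: l))
    have e : (x :: xs).reverse ++ l = xs.reverse ++ x :: l := by simp
    rw [e]
    exact h.mono (by simp; omega)

/-- Pop the top symbol of a stack tape, if there is one. -/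
def pop [Finite Γ] : Prog (tapeDev (Option Γ)) (Option Γ) :=
  lookThen (D := tapeDev (Option Γ)) (fun o => o) fun o =>
    match o with
    | none => ret none
    | some x => (doAct (D := tapeDev (Option Γ)) (some none, Dir.right)).seq (ret (some x))

lemma pop_runs_cons [Finite Γ] (x : Γ) (l : List Γ) :
    pop.Runs (tp [] (x :: l)) 1 (some x) (tp [] l) := by
  have h2 := doAct_runs (D := tapeDev (Option Γ)) (some none, Dir.right) (tp [] (x :: l))
  have h3 : (tapeDev (Option Γ)).act (some none, Dir.right) (tp [] (x :: l)) = tp [] l :=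
    tp_pop x l
  rw [h3] at h2
  have h4 := seq_runs h2 (ret_runs (some x) _)
  unfold pop
  apply lookThen_runs
  have h5 : (tapeDev (Option Γ)).obs (tp [] (x :: l)) = some x := tp_zero [] (x :: l)
  rw [h5]
  exact h4

lemma pop_runs_nil [Finite Γ] : pop.Runs (tp [] ([] : List Γ)) 1 none (tp [] []) := by
  unfold pop
  apply lookThen_runs
  have h5 : (tapeDev (Option Γ)).obs (tp [] ([] : List Γ)) = none := tp_zero [] ([] : List Γ)
  rw [h5]
  exact (ret_runs none _).mono (by omega)

end stack

end Pool.Agent.Helper86
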